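import Pool.Agent.Lib.A35.Germ

/-! Blocks E and F of the general fibre route: pure field theory. -/

open scoped TensorProduct
open Set MvPolynomial

noncomputable section

namespace Pool.Agent.Lib.KBE

section defs
variable {F : Type} [Field F] [Algebra ℂ F]

/-- A multiplicative system of subspaces: level `x`, cost `c`. -/
structure Sys (G : ℕ → ℕ → Submodule ℂ F) (c0 : ℕ) : Prop where
  mul : ∀ x c x' c', ∀ u ∈ G x c, ∀ v ∈ G x' c', u * v ∈ G (x + x') (c + c')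
  mono : ∀ x c c', c ≤ c' → G x c ≤ G x c'
  gen : ∀ x, ∃ g ∈ G x c0, g ≠ 0

/-- Wronskians stay in the system, for every derivation. -/
def Der (G : ℕ → ℕ → Submodule ℂ F) : Prop :=
  ∀ D : Derivation ℂ F F, ∃ β : F, β ≠ 0 ∧ ∃ a, ∀ x c, ∀ u ∈ G x c, ∀ v ∈ G x c,
    β * (u * D v - v * D u) ∈ G (2 * x) (2 * c + a)

/-- Every element is a quotient of elements of level zero. -/
def Frc (G : ℕ → ℕ → Submodule ℂ F) : Prop :=
  ∀ f : F, ∃ a, ∃ q ∈ G 0 a, q ≠ 0 ∧ q * f ∈ G 0 a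

/-- Ranks over the subfield are bounded in terms of the cost. -/
def BT (K : IntermediateField ℂ F) (G : ℕ → ℕ → Submodule ℂ F) : Prop :=
  ∀ c, ∃ r, ∀ x n (e : Fin n → F), (∀ i, e i ∈ G x c) → LinearIndependent K e → n ≤ r

/-- The subfield is algebraically closed in the field. -/
def Clo (K : IntermediateField ℂ F) : Prop := ∀ f : F, IsAlgebraic K f → f ∈ K

/-- The subspace `L ⊗ W`. -/
def tn (L : Type) [Field L] [Algebra ℂ L] (W : Submodule ℂ F) : Submodule ℂ (L ⊗[ℂ] F) :=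
  LinearMap.range (W.subtype.lTensor L)

/-- The diagonal of `F ⊗ K`. -/
def dg (K : IntermediateField ℂ F) : Ideal (F ⊗[ℂ] K) := A35.G.cen F K.val

/-- A coefficient of `f`. -/
def con (L : Type) [Field L] [Algebra ℂ L] {K : IntermediateField ℂ F} (π : F →ₗ[K] K) :
    L ⊗[ℂ] F →ₗ[ℂ] L ⊗[ℂ] K := (π.restrictScalars ℂ).lTensor L

/-- The inclusion `L ⊗ K → L ⊗ F`. -/
def inc (L : Type) [Field L] [Algebra ℂ L] (K : IntermediateField ℂ F) :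
    L ⊗[ℂ] K →ₐ[ℂ] L ⊗[ℂ] F := Algebra.TensorProduct.map (AlgHom.id ℂ L) K.val

/-- The diagonal is isolated in the zeros of coefficients of order `n` and cost `l`. -/
def Iso (K : IntermediateField ℂ F) (G : ℕ → ℕ → Submodule ℂ F) (l n : ℕ) : Prop :=
  ∀ σ ∈ dg K, ∃ (N : ℕ) (g : F ⊗[ℂ] K), g ∉ dg K ∧ g * σ ^ N ∈ Ideal.span
    {y | ∃ (x : ℕ) (f : F ⊗[ℂ] F) (π : F →ₗ[K] K), f ∈ tn F (G x l) ∧
      (∀ π' : F →ₗ[K] K, con F π' f ∈ dg K ^ n) ∧ y = con F π f}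

/-- One common multiplier for the coordinates. -/
def Omg (K : IntermediateField ℂ F) (G : ℕ → ℕ → Submodule ℂ F) : Prop :=
  ∀ c, ∃ l, ∀ x, ∃ (Q n : ℕ) (Om : F) (e : Fin n → F) (π : Fin n → F →ₗ[K] K),
    Om ∈ G Q l ∧ Om ≠ 0 ∧ ∀ g ∈ G x c, g = ∑ i, π i g • e i ∧ ∀ i, (π i g : F) * Om ∈ G Q l

/-- The merged form. -/
def Mrg (K : IntermediateField ℂ F) (G : ℕ → ℕ → Submodule ℂ F) (l n : ℕ) : Prop :=
  ∀ (τ : Type) [Finite τ] (σ : τ → F ⊗[ℂ] K), (∀ i, σ i ∈ dg K) →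
    ∃ (Q M : ℕ) (Om : F) (y : Fin M → F ⊗[ℂ] K), Om ∈ G Q l ∧ Om ≠ 0 ∧
      (∀ j, y j ∈ dg K ^ n ∧ inc F K (y j) * (1 ⊗ₜ Om) ∈ tn F (G Q l)) ∧
      ∀ i, ∃ (N : ℕ) (g : F ⊗[ℂ] K), g ∉ dg K ∧ g * σ i ^ N ∈ Ideal.span (range y)

/-- The specialised form: identities in `F` at a general point `p`. -/
def Cut (G : ℕ → ℕ → Submodule ℂ F) (R : Subalgebra ℂ F) {τ : Type} (s : τ → R) (l n : ℕ) :
    Prop :=
  ∃ (Q : ℕ) (Om : F) (e : R), Om ∈ G Q l ∧ Om ≠ 0 ∧ e ≠ 0 ∧ ∀ p : R →ₐ[ℂ] ℂ, p e ≠ 0 →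
    ∃ (M N : ℕ) (H : Fin M → F) (d : MvPolynomial τ ℂ), (∀ j, H j ∈ G Q l) ∧
      eval (fun i => p (s i)) d ≠ 0 ∧
      (∀ j, ∃ P ∈ Ideal.span (range fun i => (X i - C (p (s i)) : MvPolynomial τ ℂ)) ^ n,
        aeval (fun i => (s i : F)) d * H j = aeval (fun i => (s i : F)) P * Om) ∧
      ∀ i, ∃ A : Fin M → MvPolynomial τ ℂ,
        aeval (fun i => (s i : F)) (d * (X i - C (p (s i))) ^ N) * Om =
          ∑ j, aeval (fun i => (s i : F)) (A j) * H j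

/-- Ratios of bounded cost are ratios in one finite-dimensional space. -/
def Rat (K : IntermediateField ℂ F) (G : ℕ → ℕ → Submodule ℂ F) : Prop :=
  ∀ c, ∃ U : Submodule K F, FiniteDimensional K U ∧ ∀ x, ∀ u ∈ G x c, ∀ v ∈ G x c, v ≠ 0 →
    ∃ p ∈ U, ∃ q ∈ U, q ≠ 0 ∧ u * q = v * p

/-- Ratios of bounded cost have bounded degree in the generators `h`. -/
def Deg (K : IntermediateField ℂ F) (G : ℕ → ℕ → Submodule ℂ F) {τ : Type} (h : τ → F) : Prop :=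
  ∀ c, ∃ n, ∀ x, ∀ u ∈ G x c, ∀ v ∈ G x c, v ≠ 0 → ∃ p q : MvPolynomial τ K,
    p.totalDegree ≤ n ∧ q.totalDegree ≤ n ∧ aeval h q ≠ 0 ∧ u * aeval h q = v * aeval h p

end defs

/-- A hypersurface model of `F` over `k`. -/
structure Hyp (k : Type) {F : Type} [Field k] [Field F] [Algebra k F] {n : ℕ} (z : Fin n → F)
    (θ : F) (B : Polynomial (MvPolynomial (Fin n) k)) : Prop where
  ind : AlgebraicIndependent k z
  mon : B.Monic
  ker : ∀ P : Polynomial (MvPolynomial (Fin n) k),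
    P.eval₂ (aeval z : MvPolynomial (Fin n) k →ₐ[k] F).toRingHom θ = 0 ↔ B ∣ P
  sep : ¬ B ∣ B.derivative
  gen : IntermediateField.adjoin k (insert θ (range z)) = ⊤

/-- One more order of vanishing. -/
def St_REG : Prop := ∀ (F L : Type) [Field F] [Field L] [Algebra ℂ F] [Algebra ℂ L]
  (b : F →ₐ[ℂ] L) (N : ℕ) (x : L ⊗[ℂ] F), 0 < N → x ∈ A35.G.cen L b ^ N →
  (∀ D : Derivation ℂ L L, A35.G.derL F D x ∈ A35.G.cen L b ^ N) → x ∈ A35.G.cen L b ^ (N + 1)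

def St_R2 : Prop := ∀ (F : Type) [Field F] [Algebra ℂ F] [Algebra.EssFiniteType ℂ F]
  (G : ℕ → ℕ → Submodule ℂ F), (∀ x c c', c ≤ c' → G x c ≤ G x c') →
  ∃ K : IntermediateField ℂ F, Clo K ∧ BT K G ∧ ∃ l, ∀ n, Iso K G l n

def St_DER : Prop := ∀ (F : Type) [Field F] [Algebra ℂ F] (G : ℕ → ℕ → Submodule ℂ F) (c0 k : ℕ)
  (z : Fin k → F) (D : Fin k → Derivation ℂ F F) (a : ℕ), Sys G c0 → Frc G →
  IsTranscendenceBasis ℂ z → (∀ i j, D i (z j) = if i = j then 1 else 0) →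
  (∀ i x c, ∀ u ∈ G x c, ∀ v ∈ G x c, u * D i v - v * D i u ∈ G (2 * x) (2 * c + a)) → Der G

def St_OM : Prop := ∀ (F : Type) [Field F] [Algebra ℂ F] [Algebra.EssFiniteType ℂ F]
  (G : ℕ → ℕ → Submodule ℂ F) (c0 : ℕ) (K : IntermediateField ℂ F),
  Sys G c0 → Der G → Clo K → BT K G → Omg K G

def St_MRG : Prop := ∀ (F : Type) [Field F] [Algebra ℂ F]
  (G : ℕ → ℕ → Submodule ℂ F) (c0 : ℕ) (K : IntermediateField ℂ F) (l : ℕ),
  Sys G c0 → Omg K G → ∃ l', ∀ n, Iso K G l n → Mrg K G l' n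

def St_EV : Prop := ∀ (F : Type) [Field F] [Algebra ℂ F]
  (G : ℕ → ℕ → Submodule ℂ F) (K : IntermediateField ℂ F) (l n : ℕ) (R : Subalgebra ℂ F)
  (τ : Type) [Finite τ] (s : τ → R), (∀ f : F, ∃ q ∈ R, q ≠ 0 ∧ q * f ∈ R) →
  IntermediateField.adjoin ℂ (range fun i => (s i : F)) = K → Mrg K G l n → Cut G R s l n

def St_RAT : Prop := ∀ (F : Type) [Field F] [Algebra ℂ F]
  (G : ℕ → ℕ → Submodule ℂ F) (c0 : ℕ) (K : IntermediateField ℂ F), Sys G c0 → BT K G → Rat K G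

def St_DEG : Prop := ∀ (F : Type) [Field F] [Algebra ℂ F]
  (G : ℕ → ℕ → Submodule ℂ F) (K : IntermediateField ℂ F) (τ : Type) (h : τ → F),
  IntermediateField.adjoin K (range h) = ⊤ → Rat K G → Deg K G h

def St_HYP : Prop := ∀ (k F : Type) [Field k] [CharZero k] [Field F] [Algebra k F]
  [Algebra.EssFiniteType k F], ∃ (n : ℕ) (z : Fin n → F) (θ : F)
    (B : Polynomial (MvPolynomial (Fin n) k)), Hyp k z θ B

def St_FG : Prop := ∀ (F : Type) [Field F] [Algebra ℂ F] [Algebra.EssFiniteType ℂ F]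
  (K : IntermediateField ℂ F), Algebra.EssFiniteType ℂ K ∧ Algebra.EssFiniteType K F

/-- Blocks E and F together. -/
def St_EF : Prop := ∀ (F : Type) [Field F] [Algebra ℂ F] [Algebra.EssFiniteType ℂ F]
  (G : ℕ → ℕ → Submodule ℂ F) (c0 : ℕ), Sys G c0 → Der G →
  ∃ K : IntermediateField ℂ F, Clo K ∧ BT K G ∧
    (∀ (τ : Type) (h : τ → F), IntermediateField.adjoin K (range h) = ⊤ → Deg K G h) ∧
    ∃ l, ∀ (n : ℕ) (R : Subalgebra ℂ F) (τ : Type) [Finite τ] (s : τ → R),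
      (∀ f : F, ∃ q ∈ R, q ≠ 0 ∧ q * f ∈ R) →
      IntermediateField.adjoin ℂ (range fun i => (s i : F)) = K → Cut G R s l n

theorem ef_of (h1 : St_R2) (h2 : St_OM) (h3 : St_MRG) (h4 : St_EV) (h5 : St_RAT) (h6 : St_DEG) :
    St_EF := by
  intro F _ _ _ G c0 hS hD
  obtain ⟨K, k1, k2, l, k3⟩ := h1 F G hS.mono
  obtain ⟨l', k4⟩ := h3 F G c0 K l hS (h2 F G c0 K hS hD k1 k2)
  exact ⟨K, k1, k2, fun τ h hh => h6 F G K τ h hh (h5 F G c0 K hS k2), l',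
    fun n R τ _ s hR hs => h4 F G K l' n R τ s hR hs (k4 n (k3 n))⟩

end Pool.Agent.Lib.KBE
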