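import Pool.Agent.Lib.KBE.Blue
import Pool.Agent.Lib.KB.DEG26

/-! Row DEG. -/

noncomputable section

namespace Pool.Agent.Lib.KBE

theorem bDEG : St_DEG := by
  intro F _ _ G K τ h hh hR c
  obtain ⟨U, hU, H⟩ := hR c
  obtain ⟨q, n, q0, hq⟩ := KB.A26.denom hh ((Module.Finite.iff_fg).1 hU)
  refine ⟨n, fun x u hu v hv h0 => ?_⟩
  obtain ⟨a, ha, b, hb, b0, e⟩ := H x u hu v hv h0
  obtain ⟨p, p1, p2⟩ := hq a ha
  obtain ⟨p', p1', p2'⟩ := hq b hb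
  exact ⟨p, p', p1, p1', p2' ▸ mul_ne_zero b0 q0, by rw [p2, p2', ← mul_assoc, e, mul_assoc]⟩

end Pool.Agent.Lib.KBE
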