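import Pool.Agent.Lib.KBE.Blue
import Pool.Agent.Lib.KB.OM26

/-! Row DER. -/

noncomputable section

namespace Pool.Agent.Lib.KBE

namespace DER

theorem common {F : Type} [Field F] [Algebra ℂ F] {G : ℕ → ℕ → Submodule ℂ F} {c0 : ℕ}
    (h : Sys G c0) (fr : Frc G) {ι : Type} (μ : ι → F) (s : Finset ι) :
    ∃ A be, be ≠ 0 ∧ be ∈ G 0 A ∧ ∀ i ∈ s, be * μ i ∈ G 0 A := by
  classical
  induction s using Finset.induction_on with
  | empty =>
    obtain ⟨g, hg, g0⟩ := h.gen 0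
    exact ⟨c0, g, g0, hg, by simp⟩
  | insert i s _ ih =>
    obtain ⟨A, be, b0, b1, b2⟩ := ih
    obtain ⟨a, q, hq, q0, hp⟩ := fr (μ i)
    refine ⟨A + a, be * q, mul_ne_zero b0 q0, h.mul 0 _ 0 _ _ b1 _ hq, fun j hj => ?_⟩
    rcases Finset.mem_insert.1 hj with rfl | hj
    · rw [mul_assoc]
      exact h.mul 0 _ 0 _ _ b1 _ hp
    · rw [mul_right_comm]
      exact h.mul 0 _ 0 _ _ (b2 j hj) _ hq

end DER

theorem bDER : St_DER := by
  intro F _ _ G c0 k z D a hS fr hz hD der δ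
  obtain ⟨A, be, b0, -, hb⟩ := DER.common hS fr (fun i => δ (z i)) Finset.univ
  refine ⟨be, b0, a + A, fun x c u hu v hv => ?_⟩
  have e := KB.A26.comb hz hD δ
  rw [e u, e v, Finset.mul_sum, Finset.mul_sum, ← Finset.sum_sub_distrib, Finset.mul_sum]
  refine sum_mem fun i _ => ?_
  have := hS.mul _ _ _ _ _ (hb i (Finset.mem_univ _)) _ (der i x c u hu v hv)
  rw [zero_add, show A + (2 * c + a) = 2 * c + (a + A) by ring] at this
  rwa [show be * (u * (δ (z i) * D i v) - v * (δ (z i) * D i u)) =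
    be * δ (z i) * (u * D i v - v * D i u) by ring]

end Pool.Agent.Lib.KBE
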