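import Pool.Agent.Lib.KBE.Blue

/-! Specialisation of the left factor at a general point. -/

open scoped TensorProduct
open Set MvPolynomial

noncomputable section

namespace Pool.Agent.Lib.KBE

namespace EV

theorem common {κ A B : Type} [Finite κ] [CommRing A] [CommRing B] [IsDomain B] (ε : A →+* B)
    (Q : κ → A → Prop) (hm : ∀ k w w', Q k w → Q k (w * w'))
    (h : ∀ k, ∃ w, ε w ≠ 0 ∧ Q k w) : ∃ w, ε w ≠ 0 ∧ ∀ k, Q k w := by
  classical
  have := Fintype.ofFinite κ
  choose w h1 h2 using h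
  refine ⟨∏ k, w k, ?_, fun k => ?_⟩
  · rw [map_prod]
    exact Finset.prod_ne_zero_iff.2 fun k _ => h1 k
  · rw [← Finset.mul_prod_erase _ _ (Finset.mem_univ k)]
    exact hm _ _ _ (h2 k)

theorem mem_pt {τ : Type} (a : τ → ℂ) (P : MvPolynomial τ ℂ) :
    P - C (eval a P) ∈ Ideal.span (range fun i => (X i - C (a i) : MvPolynomial τ ℂ)) := by
  induction P using MvPolynomial.induction_on with
  | C c => simp
  | add p q hp hq =>
    rw [map_add, map_add, add_sub_add_comm]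
    exact add_mem hp hq
  | mul_X p i hp =>
    rw [show p * X i - C (eval a (p * X i)) =
      (p - C (eval a p)) * X i + C (eval a p) * (X i - C (a i)) by simp only [map_mul, eval_X]; ring]
    exact add_mem (Ideal.mul_mem_right _ _ hp)
      (Ideal.mul_mem_left _ _ (Ideal.subset_span ⟨i, rfl⟩))

variable {F : Type} [Field F] [Algebra ℂ F] {K : IntermediateField ℂ F} {R : Subalgebra ℂ F}
  {τ : Type} {s : τ → R} {k : τ → K}

/-- Polynomials in the right copy of the generators. -/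
def pk (R : Subalgebra ℂ F) (k : τ → K) : MvPolynomial τ R →+* F ⊗[ℂ] K :=
  eval₂Hom (Algebra.TensorProduct.includeLeftRingHom.comp R.val.toRingHom) fun i => 1 ⊗ₜ k i

/-- The same with left factors in the ring. -/
def pr (s : τ → R) : MvPolynomial τ R →+* R ⊗[ℂ] F :=
  eval₂Hom Algebra.TensorProduct.includeLeftRingHom fun i => 1 ⊗ₜ (s i : F)

/-- The inclusion of the left factor. -/
def up (R : Subalgebra ℂ F) : R ⊗[ℂ] F →ₐ[ℂ] F ⊗[ℂ] F :=
  Algebra.TensorProduct.map R.val (AlgHom.id ℂ F)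

/-- The specialisation of the left factor. -/
def sp (p : R →ₐ[ℂ] ℂ) : R ⊗[ℂ] F →ₐ[ℂ] F :=
  Algebra.TensorProduct.lift ((Algebra.ofId ℂ F).comp p) (AlgHom.id ℂ F) fun _ _ => .all _ _

theorem pk_C (r : R) : pk R k (C r) = (r : F) ⊗ₜ 1 := eval₂Hom_C _ _ _
theorem pk_X (i : τ) : pk R k (X i) = 1 ⊗ₜ k i := eval₂Hom_X' _ _ _
theorem pr_C (r : R) : pr s (C r) = r ⊗ₜ 1 := eval₂Hom_C _ _ _
theorem pr_X (i : τ) : pr s (X i) = 1 ⊗ₜ (s i : F) := eval₂Hom_X' _ _ _
theorem up_t (r : R) (a : F) : up R (r ⊗ₜ a) = (r : F) ⊗ₜ a := rfl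
theorem inc_t (r : F) (a : K) : inc F K (r ⊗ₜ a) = r ⊗ₜ (a : F) := rfl
theorem sp_t (p : R →ₐ[ℂ] ℂ) (r : R) (a : F) : sp p (r ⊗ₜ a) = p r • a := by
  rw [Algebra.smul_def]; rfl

theorem up_inj : Function.Injective (up R) :=
  Module.Flat.rTensor_preserves_injective_linearMap (M := F) R.val.toLinearMap Subtype.val_injective

theorem sp_pr (p : R →ₐ[ℂ] ℂ) (P : MvPolynomial τ R) :
    sp p (pr s P) = aeval (fun i => (s i : F)) (map p.toRingHom P) := by
  induction P using MvPolynomial.induction_on with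
  | C c => rw [pr_C, sp_t, map_C, aeval_C, Algebra.algebraMap_eq_smul_one]; rfl
  | add a b ha hb => simp only [map_add, ha, hb]
  | mul_X a i ha => rw [map_mul, map_mul, ha, pr_X, sp_t, map_one, one_smul, map_mul, map_mul,
      map_X, aeval_X]

theorem ev_map (p : R →ₐ[ℂ] ℂ) (P : MvPolynomial τ R) :
    eval (fun i => p (s i)) (map p.toRingHom P) = p (eval s P) := by
  induction P using MvPolynomial.induction_on with
  | C c => simp
  | add a b ha hb => simp only [map_add, ha, hb]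
  | mul_X a i ha => simp only [map_mul, ha, map_X, eval_X]

variable (s k) in
/-- A fraction with numerator in `I`. -/
def Rp (I : Ideal (MvPolynomial τ R)) (t : F ⊗[ℂ] K) : Prop :=
  ∃ w, eval s w ≠ 0 ∧ ∃ P ∈ I, t * pk R k w = pk R k P

variable {I I' : Ideal (MvPolynomial τ R)} {t t' : F ⊗[ℂ] K}

theorem Rp.pol {P : MvPolynomial τ R} (h : P ∈ I) : Rp s k I (pk R k P) :=
  ⟨1, by simp, P, h, by simp⟩

theorem Rp.add (h : Rp s k I t) (h' : Rp s k I t') : Rp s k I (t + t') := by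
  obtain ⟨w, a, P, b, c⟩ := h
  obtain ⟨w', a', P', b', c'⟩ := h'
  refine ⟨w * w', by rw [map_mul]; exact mul_ne_zero a a', P * w' + P' * w,
    add_mem (I.mul_mem_right _ b) (I.mul_mem_right _ b'), ?_⟩
  simp only [map_mul, map_add, ← c, ← c']
  ring

theorem Rp.mul (h : Rp s k I t) (h' : Rp s k I' t') : Rp s k (I * I') (t * t') := by
  obtain ⟨w, a, P, b, c⟩ := h
  obtain ⟨w', a', P', b', c'⟩ := h'
  refine ⟨w * w', by rw [map_mul]; exact mul_ne_zero a a', P * P', Ideal.mul_mem_mul b b', ?_⟩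
  simp only [map_mul, ← c, ← c']
  ring

theorem Rp.mulT (h : Rp s k ⊤ t) (h' : Rp s k ⊤ t') : Rp s k ⊤ (t * t') := by
  simpa using h.mul h'

section
variable (hk : ∀ i, (k i : F) = s i)
include hk

theorem up_pr (P : MvPolynomial τ R) : up R (pr s P) = inc F K (pk R k P) := by
  induction P using MvPolynomial.induction_on with
  | C c => rw [pr_C, pk_C]; rfl
  | add a b ha hb => simp only [map_add, ha, hb]
  | mul_X a i ha => rw [map_mul, map_mul, ha, pr_X, map_mul, map_mul, pk_X, up_t, inc_t, hk]; rfl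

theorem ev_pk (P : MvPolynomial τ R) : A35.G.ev F K.val (pk R k P) = (eval s P : R) := by
  induction P using MvPolynomial.induction_on with
  | C c => rw [pk_C, A35.G.ev_tmul]; simp
  | add a b ha hb => simp only [map_add, ha, hb, Subalgebra.coe_add]
  | mul_X a i ha => rw [map_mul, map_mul, ha, pk_X, A35.G.ev_tmul]; simp [hk]

theorem ev_eq {w P : MvPolynomial τ R} (h : t * pk R k w = pk R k P) :
    A35.G.ev F K.val t * (eval s w : R) = (eval s P : R) := by
  rw [← ev_pk hk, ← ev_pk hk, ← map_mul, h]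

theorem ev_ne {w P : MvPolynomial τ R} (h : t * pk R k w = pk R k P) (ht : t ∉ dg K)
    (hw : eval s w ≠ 0) : eval s P ≠ 0 := fun e => by
  have := ev_eq hk h
  rw [e, ZeroMemClass.coe_zero, mul_eq_zero] at this
  exact this.elim ht fun e' => hw (Subtype.ext e')

variable (hR : ∀ f : F, ∃ q ∈ R, q ≠ 0 ∧ q * f ∈ R)
  (hs : IntermediateField.adjoin ℂ (range fun i => (s i : F)) = K)
include hR hs

theorem rp_top (t : F ⊗[ℂ] K) : Rp s k ⊤ t := by
  have r : ∀ b (hb : b ∈ K), Rp s k ⊤ (1 ⊗ₜ ⟨b, hb⟩) := by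
    subst hs
    intro b hb
    induction hb using IntermediateField.adjoin_induction with
    | mem b hb =>
      obtain ⟨i, rfl⟩ := hb
      have := Rp.pol (s := s) (k := k) (Submodule.mem_top (x := X i))
      rwa [pk_X, show k i = ⟨s i, _⟩ from Subtype.ext (hk i)] at this
    | algebraMap c =>
      have := Rp.pol (s := s) (k := k) (Submodule.mem_top (x := C (algebraMap ℂ R c)))
      rw [pk_C, Subalgebra.coe_algebraMap, Algebra.algebraMap_eq_smul_one, TensorProduct.smul_tmul,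
        ← Algebra.algebraMap_eq_smul_one] at this
      exact this
    | add a b ha hb h h' =>
      have := h.add h'
      rwa [← TensorProduct.tmul_add] at this
    | mul a b ha hb h h' =>
      have := h.mulT h'
      rwa [Algebra.TensorProduct.tmul_mul_tmul, one_mul] at this
    | inv a ha h =>
      by_cases h0 : a = 0
      · simpa [h0] using h
      obtain ⟨w, h1, P, -, h2⟩ := h
      refine ⟨P, ev_ne hk h2 (fun e => h0 ?_) h1, w, trivial, ?_⟩
      · simpa [A35.G.ev_tmul] using A35.G.mem_cen.1 e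
      · rw [← h2, ← mul_assoc, Algebra.TensorProduct.tmul_mul_tmul, one_mul]
        exact (congrArg (fun z => (1 : F) ⊗ₜ[ℂ] z * pk R k w) (Subtype.ext (inv_mul_cancel₀ h0) :
          _ = (1 : IntermediateField.adjoin ℂ (range fun i => (s i : F))))).trans (one_mul _)
  induction t with
  | zero => simpa using Rp.pol (s := s) (k := k) (Submodule.zero_mem ⊤)
  | add a b ha hb => exact ha.add hb
  | tmul a b =>
    obtain ⟨q, h1, h2, h3⟩ := hR a
    have l : Rp s k ⊤ (a ⊗ₜ 1) := ⟨C ⟨q, h1⟩, by simpa using fun e => h2 (congrArg Subtype.val e),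
      C ⟨_, h3⟩, trivial, by rw [pk_C, pk_C, Algebra.TensorProduct.tmul_mul_tmul, mul_one, mul_comm]⟩
    simpa using l.mulT (r b.1 b.2)

theorem rp_pow (n : ℕ) : ∀ t ∈ dg K ^ n, Rp s k (RingHom.ker (eval s) ^ n) t := by
  induction n with
  | zero => exact fun t _ => by simpa using rp_top hk hR hs t
  | succ n ih =>
    intro t ht
    rw [Submodule.pow_succ] at ht
    rw [pow_succ]
    refine Submodule.mul_induction_on ht (fun a ha b hb => (ih a ha).mul ?_) fun a b => Rp.add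
    obtain ⟨w, h1, P, -, h2⟩ := rp_top hk hR hs b
    refine ⟨w, h1, P, Subtype.ext ?_, h2⟩
    rw [← ev_eq hk h2, A35.G.mem_cen.1 hb, zero_mul]
    rfl

end

theorem clr (hR : ∀ f : F, ∃ q ∈ R, q ≠ 0 ∧ q * f ∈ R) {W : Submodule ℂ F} {M : ℕ}
    {f : Fin M → F ⊗[ℂ] F} (h : ∀ j, f j ∈ tn F W) : ∃ u : R, u ≠ 0 ∧
      ∀ j, ∃ g, (∀ p : R →ₐ[ℂ] ℂ, sp p g ∈ W) ∧ up R g = ((u : F) ⊗ₜ 1) * f j := by
  have hm : ∀ (f : F ⊗[ℂ] F) (u u' : R),
      (∃ g, (∀ p : R →ₐ[ℂ] ℂ, sp p g ∈ W) ∧ up R g = ((u : F) ⊗ₜ 1) * f) →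
      ∃ g, (∀ p : R →ₐ[ℂ] ℂ, sp p g ∈ W) ∧ up R g = (((u * u' : R) : F) ⊗ₜ 1) * f := by
    rintro f u u' ⟨g, h1, h2⟩
    refine ⟨(u' ⊗ₜ 1) * g, fun p => ?_, ?_⟩
    · rw [map_mul, sp_t, smul_mul_assoc, one_mul]
      exact W.smul_mem _ (h1 p)
    · rw [map_mul, h2, up_t, ← mul_assoc, Algebra.TensorProduct.tmul_mul_tmul, one_mul, mul_comm u]
      rfl
  refine common (RingHom.id R) _ (fun j => hm (f j)) fun j => ?_
  obtain ⟨x, hx⟩ := h j
  rw [← hx]
  clear hx
  induction x with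
  | zero => exact ⟨1, one_ne_zero, 0, fun p => by simp, by simp⟩
  | add a b ha hb =>
    obtain ⟨u, h1, h2⟩ := ha
    obtain ⟨u', h1', h2'⟩ := hb
    obtain ⟨g, g1, g2⟩ := hm _ u u' h2
    obtain ⟨g', g1', g2'⟩ := hm _ u' u h2'
    exact ⟨u * u', mul_ne_zero h1 h1', g + g', fun p => by
      rw [map_add]; exact add_mem (g1 p) (g1' p), by
      rw [map_add, map_add, g2, g2', mul_add, mul_comm u']⟩
  | tmul a b =>
    obtain ⟨q, h1, h2, h3⟩ := hR a
    exact ⟨⟨q, h1⟩, fun e => h2 (congrArg Subtype.val e), ⟨_, h3⟩ ⊗ₜ b.1, fun p => by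
      rw [sp_t]; exact W.smul_mem _ b.2, by
      rw [up_t, LinearMap.lTensor_tmul, Algebra.TensorProduct.tmul_mul_tmul, one_mul]; rfl⟩

end EV

open EV in
theorem bEV : St_EV := by
  intro F _ _ G K l n R τ _ s hR hs hM
  obtain ⟨k, hk⟩ : ∃ k : τ → K, ∀ i, (k i : F) = s i :=
    ⟨fun i => ⟨s i, hs ▸ IntermediateField.subset_adjoin _ _ ⟨i, rfl⟩⟩, fun _ => rfl⟩
  obtain ⟨Q, M, Om, y, o1, o2, hy, hg⟩ := hM τ (fun i => pk R k (X i - C (s i))) fun i =>
    A35.G.mem_cen.2 (by rw [ev_pk hk]; simp)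
  choose N0 g g1 g2 using hg
  obtain ⟨N, hN⟩ := Finite.exists_le N0
  obtain ⟨u, u0, hu⟩ := clr hR fun j => (hy j).2
  choose f f1 f2 using hu
  obtain ⟨w1, a1, b1⟩ := common (eval s) (fun (j : Fin M) w => ∃ P ∈ RingHom.ker (eval s) ^ n,
      pr s w * f j = pr s P * (1 ⊗ₜ Om)) (by
    rintro j w w' ⟨P, h1, h2⟩
    exact ⟨P * w', Ideal.mul_mem_right _ _ h1, by
      rw [map_mul, map_mul, mul_right_comm, h2, mul_right_comm]⟩) fun j => by
    obtain ⟨w, h1, P, h2, h3⟩ := rp_pow hk hR hs n _ (hy j).1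
    refine ⟨w, h1, C u * P, Ideal.mul_mem_left _ _ h2, up_inj ?_⟩
    simp only [map_mul, f2, up_pr hk, up_t, ← h3, pk_C, inc_t, OneMemClass.coe_one]
    ring
  obtain ⟨w2, a2, b2⟩ := common (eval s) (fun (i : τ) w => ∃ A : Fin M → MvPolynomial τ R,
      pr s (w * (X i - C (s i)) ^ N) * (1 ⊗ₜ Om) = ∑ j, pr s (A j) * f j) (by
    rintro i w w' ⟨A, h⟩
    refine ⟨fun j => w' * A j, ?_⟩
    rw [mul_comm w, mul_assoc w', map_mul, mul_assoc, h, Finset.mul_sum]
    simp only [map_mul, mul_assoc]) fun i => by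
    have m : g i * pk R k ((X i - C (s i)) ^ N) ∈ Ideal.span (range y) := by
      have e : g i * pk R k ((X i - C (s i)) ^ N) = pk R k ((X i - C (s i)) ^ (N - N0 i)) *
          (g i * pk R k ((X i - C (s i)) ^ N0 i)) := by
        rw [← Nat.sub_add_cancel (hN i), pow_add, map_mul, Nat.add_sub_cancel]
        ring
      rw [e, map_pow _ _ (N0 i)]
      exact Ideal.mul_mem_left _ _ (g2 i)
    obtain ⟨a, ha⟩ := Ideal.mem_span_range_iff_exists_fun.1 m
    obtain ⟨w, h1, h2⟩ := common (eval s) (fun (j : Option (Fin M)) w =>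
        ∃ P, j.elim (g i) a * pk R k w = pk R k P) (by
      rintro j w w' ⟨P, h⟩
      exact ⟨P * w', by rw [map_mul, map_mul, ← mul_assoc, h]⟩) fun j =>
      let ⟨w, h1, P, _, h2⟩ := rp_top hk hR hs (j.elim (g i) a)
      ⟨w, h1, P, h2⟩
    choose A hA using h2
    refine ⟨C u * A none, ?_, fun j => A (some j), up_inj ?_⟩
    · rw [map_mul, eval_C]
      exact mul_ne_zero u0 (ev_ne hk (hA none) (g1 i) h1)
    have e := congrArg (fun t => ((u : F) ⊗ₜ 1) * inc F K (t * pk R k w) * (1 ⊗ₜ Om)) ha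
    simp only [map_mul, map_sum, Finset.sum_mul, Finset.mul_sum] at e
    simp only [map_mul, map_sum, f2, up_pr hk, up_t, ← hA, pk_C, inc_t,
      OneMemClass.coe_one, Option.elim]
    refine Eq.trans (by ring) (e.symm.trans (Finset.sum_congr rfl fun j _ => by ring))
  refine ⟨Q, Om, eval s (w1 * w2), o1, o2, by rw [map_mul]; exact mul_ne_zero a1 a2, fun p hp =>
    ⟨M, N, fun j => sp p (f j), map p.toRingHom (w1 * w2), fun j => f1 j p, by rwa [ev_map],
      fun j => ?_, fun i => ?_⟩⟩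
  · obtain ⟨P, h1, h2⟩ := b1 j
    refine ⟨map p.toRingHom (w2 * P), ?_, ?_⟩
    · refine Ideal.mem_comap.1 (Ideal.le_comap_pow _ n (Ideal.pow_right_mono (fun a ha => ?_) n
        (Ideal.mul_mem_left _ _ h1)))
      have := mem_pt (fun i => p (s i)) (map p.toRingHom a)
      rwa [ev_map, RingHom.mem_ker.1 ha, map_zero, map_zero, sub_zero] at this
    · have := congrArg (fun t => sp p (pr s w2 * t)) h2
      simp only [map_mul, sp_t, map_one, one_smul] at this
      simp only [← sp_pr, map_mul]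
      linear_combination this
  · obtain ⟨A, h⟩ := b2 i
    refine ⟨fun j => map p.toRingHom (w1 * A j), ?_⟩
    have := congrArg (fun t => sp p (pr s w1 * t)) h
    simp only [map_mul, map_sum, Finset.mul_sum, sp_t, map_one, one_smul, sp_pr, map_pow, map_sub,
      map_X, map_C] at this ⊢
    simp only [mul_assoc] at this ⊢
    exact this

end Pool.Agent.Lib.KBE
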