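import Pool.Agent.Lib.KBE.Blue

/-! A subfield of a finitely generated field is finitely generated. -/

open Set MvPolynomial

noncomputable section

namespace Pool.Agent.Lib.KBE

namespace FG

open scoped IntermediateField.algebraAdjoinAdjoin

/-- Independence of algebraic elements survives a purely transcendental extension. -/
theorem ind_tr {k K F : Type} [Field k] [Field K] [Field F] [Algebra k K] [Algebra K F]
    [Algebra k F] [IsScalarTower k K F] [Algebra.IsAlgebraic k K] {ι τ : Type} [Fintype τ]
    {z : ι → F} (hz : AlgebraicIndependent k z) {e : τ → K} (he : LinearIndependent k e) :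
    LinearIndependent (IntermediateField.adjoin k (range z)) (fun i => algebraMap K F (e i)) := by
  rw [← LinearIndependent.iff_fractionRing (Algebra.adjoin k (range z))
    (IntermediateField.adjoin k (range z)), Fintype.linearIndependent_iff]
  intro g hg i
  have hp : ∀ j, ∃ p : MvPolynomial ι k, aeval z p = (g j : F) := fun j =>
    (Algebra.adjoin_range_eq_range_aeval k z).le (g j).2
  choose p hp using hp
  have hK : AlgebraicIndependent K z := hz.extendScalars K
  have h0 : ∑ j, C (e j) * map (algebraMap k K) (p j) = 0 := by
    apply algebraicIndependent_iff_injective_aeval.1 hK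
    rw [map_zero, map_sum, ← hg]
    refine Finset.sum_congr rfl fun j _ => ?_
    rw [map_mul, aeval_C, aeval_map_algebraMap, hp, mul_comm]
    rfl
  have h1 : p i = 0 := by
    ext m
    refine Fintype.linearIndependent_iff.1 he (fun j => coeff m (p j)) ?_ i
    have := congrArg (coeff m) h0
    rw [coeff_sum, coeff_zero] at this
    rw [← this]
    refine Finset.sum_congr rfl fun j _ => ?_
    rw [coeff_C_mul, coeff_map, Algebra.smul_def, mul_comm]
  apply Subtype.ext
  rw [← hp i, h1, map_zero]
  rfl

/-- An algebraic subextension of a finitely generated extension is finite. -/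
theorem fin_alg (k K F : Type) [Field k] [Field K] [Field F] [Algebra k K] [Algebra K F]
    [Algebra k F] [IsScalarTower k K F] [Algebra.IsAlgebraic k K] [Algebra.EssFiniteType k F] :
    Module.Finite k K := by
  obtain ⟨s, hs⟩ := exists_isTranscendenceBasis k F
  have h1 := hs.isAlgebraic_field
  have h2 : Algebra.EssFiniteType (IntermediateField.adjoin k (range ((↑) : s → F))) F :=
    .of_comp k _ _
  have h3 : Module.Finite (IntermediateField.adjoin k (range ((↑) : s → F))) F :=
    Algebra.finite_of_essFiniteType_of_isAlgebraic
  rw [← Module.rank_lt_aleph0_iff]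
  refine lt_of_le_of_lt (rank_le (n := Module.finrank
    (IntermediateField.adjoin k (range ((↑) : s → F))) F) fun t ht => ?_) Cardinal.natCast_lt_aleph0
  simpa using (ind_tr hs.1 ht).fintype_card_le_finrank

end FG

theorem bFG : St_FG := by
  intro F _ _ _ K
  refine ⟨?_, .of_comp ℂ _ _⟩
  obtain ⟨s, hs⟩ := exists_isTranscendenceBasis ℂ K
  have hf : Finite s := finite_of_algebraicIndependent
    (hs.1.map' (f := K.val) K.val.toRingHom.injective)
  have h1 := hs.isAlgebraic_field
  have h2 : Algebra.EssFiniteType (IntermediateField.adjoin ℂ (range ((↑) : s → K))) F :=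
    .of_comp ℂ _ _
  have h3 := FG.fin_alg (IntermediateField.adjoin ℂ (range ((↑) : s → K))) K F
  have h4 : Algebra.EssFiniteType ℂ (IntermediateField.adjoin ℂ (range ((↑) : s → K))) :=
    IntermediateField.essFiniteType_iff.2 (IntermediateField.fg_adjoin_of_finite (finite_range _))
  exact .comp ℂ (IntermediateField.adjoin ℂ (range ((↑) : s → K))) K

end Pool.Agent.Lib.KBE
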