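import Pool.Agent.Lib.KBE.Blue

/-! Row HYP: a hypersurface model of a finitely generated field extension. -/

open Set MvPolynomial

noncomputable section

namespace Pool.Agent.Lib.KBE

namespace HYP

theorem basis (k F : Type) [Field k] [Field F] [Algebra k F] [Algebra.EssFiniteType k F] :
    ∃ (n : ℕ) (z : Fin n → F), IsTranscendenceBasis k z := by
  obtain ⟨s, hs⟩ := exists_finset_isTranscendenceBasis k F
  exact ⟨s.card, _, hs.comp_equiv s.equivFin.symm⟩

theorem prim {k F : Type} [Field k] [CharZero k] [Field F] [Algebra k F]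
    [Algebra.EssFiniteType k F] {n : ℕ} {z : Fin n → F} (hz : IsTranscendenceBasis k z) :
    ∃ t : F, ∀ E : IntermediateField k F, (∀ i, z i ∈ E) → t ∈ E → E = ⊤ := by
  have := hz.isAlgebraic_field
  have : Algebra.EssFiniteType (IntermediateField.adjoin k (range z)) F :=
    Algebra.EssFiniteType.of_comp k _ F
  have : Module.Finite (IntermediateField.adjoin k (range z)) F :=
    Algebra.finite_of_essFiniteType_of_isAlgebraic
  have : CharZero (IntermediateField.adjoin k (range z)) :=
    algebraRat.charZero _
  obtain ⟨t, ht⟩ := Field.exists_primitive_element (IntermediateField.adjoin k (range z)) F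
  refine ⟨t, fun E hE htE => ?_⟩
  have h1 : IntermediateField.adjoin k (range z ∪ {t}) = ⊤ := by
    rw [← IntermediateField.adjoin_adjoin_left, ht]
    rfl
  rw [eq_top_iff, ← h1, IntermediateField.adjoin_le_iff]
  rintro x (⟨i, rfl⟩ | rfl)
  · exact hE i
  · exact htE

end HYP

theorem bHYP : St_HYP := by
  intro k F _ _ _ _ _
  obtain ⟨n, z, hz⟩ := HYP.basis k F
  obtain ⟨t, ht⟩ := HYP.prim hz
  let : Algebra (MvPolynomial (Fin n) k) F :=
    (aeval z : MvPolynomial (Fin n) k →ₐ[k] F).toRingHom.toAlgebra
  have hmap : algebraMap (MvPolynomial (Fin n) k) F =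
      (aeval z : MvPolynomial (Fin n) k →ₐ[k] F).toRingHom := rfl
  have hinj : Function.Injective (algebraMap (MvPolynomial (Fin n) k) F) := hz.1
  have : FaithfulSMul (MvPolynomial (Fin n) k) F :=
    (faithfulSMul_iff_algebraMap_injective _ _).2 hinj
  have halg : IsAlgebraic (MvPolynomial (Fin n) k) t := by
    obtain ⟨p, hp0, hp⟩ := hz.isAlgebraic.1 t
    refine ⟨p.map (hz.1.aevalEquiv.symm : _ →+* MvPolynomial (Fin n) k), ?_, ?_⟩
    · exact (Polynomial.map_ne_zero_iff hz.1.aevalEquiv.symm.injective).2 hp0
    · rw [Polynomial.aeval_def, Polynomial.eval₂_map]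
      have hc : (algebraMap (MvPolynomial (Fin n) k) F).comp
          (hz.1.aevalEquiv.symm : _ →+* MvPolynomial (Fin n) k) =
          algebraMap (Algebra.adjoin k (range z)) F := by
        ext a
        obtain ⟨b, rfl⟩ := hz.1.aevalEquiv.surjective a
        simp only [RingHom.coe_comp, RingHom.coe_coe, Function.comp_apply,
          AlgEquiv.symm_apply_apply]
        exact (hz.1.algebraMap_aevalEquiv b).symm
      rw [hc, ← Polynomial.aeval_def]
      exact hp
  obtain ⟨a, ha0, hint⟩ := halg.exists_integral_multiple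
  refine ⟨n, z, a • t, minpoly (MvPolynomial (Fin n) k) (a • t), hz.1, minpoly.monic hint,
    fun P => ?_, fun hd => ?_, ?_⟩
  · rw [← hmap, ← Polynomial.aeval_def]
    exact minpoly.isIntegrallyClosed_dvd_iff hint P
  · have hpos := minpoly.natDegree_pos hint
    have h0 : Polynomial.derivative (minpoly (MvPolynomial (Fin n) k) (a • t)) = 0 :=
      Polynomial.eq_zero_of_dvd_of_natDegree_lt hd (Polynomial.natDegree_derivative_lt hpos.ne')
    exact hpos.ne' (Polynomial.derivative_eq_zero.1 h0)
  · have hzE : ∀ i, z i ∈ IntermediateField.adjoin k (insert (a • t) (range z)) := fun i =>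
      IntermediateField.subset_adjoin _ _ (mem_insert_of_mem _ ⟨i, rfl⟩)
    refine ht _ hzE ?_
    have h1 : a • t ∈ IntermediateField.adjoin k (insert (a • t) (range z)) :=
      IntermediateField.subset_adjoin _ _ (mem_insert _ _)
    have h2 : algebraMap (MvPolynomial (Fin n) k) F a ∈
        IntermediateField.adjoin k (insert (a • t) (range z)) := by
      have h3 : (aeval z : MvPolynomial (Fin n) k →ₐ[k] F) a ∈ Algebra.adjoin k (range z) := by
        rw [Algebra.adjoin_range_eq_range_aeval]
        exact ⟨a, rfl⟩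
      refine (Algebra.adjoin_le (S := (IntermediateField.adjoin k
        (insert (a • t) (range z))).toSubalgebra) ?_) h3
      rintro _ ⟨i, rfl⟩
      exact hzE i
    have h4 : algebraMap (MvPolynomial (Fin n) k) F a ≠ 0 := fun h =>
      ha0 (hinj (h.trans (map_zero _).symm))
    have h5 : t = (algebraMap (MvPolynomial (Fin n) k) F a)⁻¹ * (a • t) := by
      rw [Algebra.smul_def, inv_mul_cancel_left₀ h4]
    have h6 := mul_mem (inv_mem h2) h1
    rwa [← h5] at h6

end Pool.Agent.Lib.KBE
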