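import Pool.Agent.Lib.KBE.Blue

/-! Row `MRG`: one level and one multiplier for finitely many coefficients. -/

open scoped TensorProduct
open Set

noncomputable section

namespace Pool.Agent.Lib.KBE

namespace MRG

variable {F : Type} [Field F] [Algebra ℂ F] {W W' : Submodule ℂ F} {K : IntermediateField ℂ F}
  {f : F ⊗[ℂ] F}

theorem mem (a : F) {w : F} (h : w ∈ W) : a ⊗ₜ[ℂ] w ∈ tn F W := ⟨a ⊗ₜ ⟨w, h⟩, rfl⟩

theorem ind {p : F ⊗[ℂ] F → Prop} (h0 : p 0) (h1 : ∀ a, ∀ w ∈ W, p (a ⊗ₜ w))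
    (h2 : ∀ x y, p x → p y → p (x + y)) (hf : f ∈ tn F W) : p f := by
  obtain ⟨w, rfl⟩ := hf
  induction w with
  | zero => rwa [map_zero]
  | tmul a w => exact h1 a w w.2
  | add x y hx hy => exact map_add (W.subtype.lTensor F) x y ▸ h2 _ _ hx hy

theorem mul {γ : F} (h : ∀ u ∈ W, u * γ ∈ W') (hf : f ∈ tn F W) : f * (1 ⊗ₜ γ) ∈ tn F W' := by
  refine ind (p := fun f => f * (1 ⊗ₜ γ) ∈ tn F W') (by simp) (fun a w hw => ?_)
    (fun x y hx hy => ?_) hf
  · rw [Algebra.TensorProduct.tmul_mul_tmul]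
    exact mem _ (h w hw)
  · rw [add_mul]
    exact add_mem hx hy

theorem con_tmul (π : F →ₗ[K] K) (a w : F) : con F π (a ⊗ₜ w) = a ⊗ₜ π w := rfl

theorem con_mul (π : F →ₗ[K] K) (γ : F) (f : F ⊗[ℂ] F) :
    con F π (f * (1 ⊗ₜ γ)) = con F (π ∘ₗ LinearMap.mulRight K γ) f := by
  induction f with
  | zero => simp
  | tmul a w => rw [Algebra.TensorProduct.tmul_mul_tmul, mul_one]; rfl
  | add x y hx hy => rw [add_mul, map_add, map_add, hx, hy]

theorem dec {m : ℕ} {e : Fin m → F} {π : Fin m → F →ₗ[K] K} (h : ∀ g ∈ W, g = ∑ i, π i g • e i)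
    (ρ : F →ₗ[K] K) (hf : f ∈ tn F W) :
    con F ρ f = ∑ i, (1 ⊗ₜ ρ (e i)) * con F (π i) f := by
  refine ind (p := fun f => con F ρ f = ∑ i, (1 ⊗ₜ ρ (e i)) * con F (π i) f) (by simp)
    (fun a w hw => ?_) (fun x y hx hy => ?_) hf
  · simp only [con_tmul, Algebra.TensorProduct.tmul_mul_tmul, one_mul, ← TensorProduct.tmul_sum]
    conv_lhs => rw [h w hw, map_sum]
    simp only [map_smul, smul_eq_mul, mul_comm]
  · simp only [map_add, hx, hy, mul_add, Finset.sum_add_distrib]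

theorem inc_mul {π : F →ₗ[K] K} {Om : F} (h : ∀ g ∈ W, (π g : F) * Om ∈ W') (hf : f ∈ tn F W) :
    inc F K (con F π f) * (1 ⊗ₜ Om) ∈ tn F W' := by
  refine ind (p := fun f => inc F K (con F π f) * (1 ⊗ₜ Om) ∈ tn F W') (by simp)
    (fun a w hw => ?_) (fun x y hx hy => ?_) hf
  · rw [con_tmul, inc, Algebra.TensorProduct.map_tmul, Algebra.TensorProduct.tmul_mul_tmul]
    exact mem _ (h w hw)
  · rw [map_add, map_add, add_mul]
    exact add_mem hx hy

end MRG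

theorem bMRG : St_MRG := by
  intro F _ _ G c0 K l hS hO
  obtain ⟨l', hl⟩ := hO (l + c0)
  refine ⟨l', fun n hI τ _ σ hσ => ?_⟩
  choose N g hg hm using fun i => hI _ (hσ i)
  choose T hT hm using fun i => Submodule.mem_span_finite_of_mem_span (hm i)
  have : Finite (Σ i, T i) := inferInstance
  have := Fintype.ofFinite (Σ i, T i)
  choose x f π hf hn he using fun t : Σ i, T i => hT t.1 t.2.2
  obtain ⟨Q, m, Om, e, π', o1, o2, o3⟩ := hl (Finset.univ.sup x)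
  choose γ hγ γ0 using fun t => hS.gen (Finset.univ.sup x - x t)
  have h2 : ∀ t, f t * (1 ⊗ₜ γ t) ∈ tn F (G (Finset.univ.sup x) (l + c0)) := fun t =>
    MRG.mul (fun u hu => by
      have := hS.mul _ _ _ _ u hu _ (hγ t)
      rwa [Nat.add_sub_cancel' (Finset.le_sup (f := x) (Finset.mem_univ t))] at this) (hf t)
  let y := fun p : (Σ i, T i) × Fin m => con F (π' p.2) (f p.1 * (1 ⊗ₜ γ p.1))
  let q := (Fintype.equivFin ((Σ i, T i) × Fin m)).symm
  refine ⟨Q, _, Om, y ∘ q, o1, o2, fun j => ⟨?_, MRG.inc_mul (fun g hg => (o3 g hg).2 _) (h2 _)⟩,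
    fun i => ⟨N i, g i, hg i, Ideal.span_le.2 (fun z hz => ?_) (hm i)⟩⟩
  · exact mem_of_eq_of_mem (MRG.con_mul (π' (q j).2) (γ (q j).1) (f (q j).1)) (hn _ _)
  · have k := MRG.dec (fun g hg => (o3 g hg).1)
      (π ⟨i, z, hz⟩ ∘ₗ LinearMap.mulRight K (γ ⟨i, z, hz⟩)⁻¹) (h2 ⟨i, z, hz⟩)
    rw [← MRG.con_mul, mul_assoc, Algebra.TensorProduct.tmul_mul_tmul, mul_one,
      mul_inv_cancel₀ (γ0 _), ← Algebra.TensorProduct.one_def, mul_one, ← he] at k
    rw [show z = _ from k, q.surjective.range_comp]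
    exact Ideal.sum_mem _ fun j _ => Ideal.mul_mem_left _ _ (Ideal.subset_span ⟨(_, j), rfl⟩)

end Pool.Agent.Lib.KBE
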