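import Pool.Agent.Lib.KBE.B_RAT
import Pool.Agent.Lib.KB.OM26

/-! Row OM. -/

open Set

noncomputable section

namespace Pool.Agent.Lib.KBE

namespace OM

variable {F : Type} [Field F] [Algebra ℂ F] {Gam : ℕ → ℕ → Submodule ℂ F} {c0 : ℕ}

theorem prod (h : Sys Gam c0) {g : F} (hg : g ∈ Gam 0 c0) {ι : Type} (s : Finset ι) {Q : ι → ℕ}
    {l : ℕ} {f : ι → F} (hf : ∀ i ∈ s, f i ∈ Gam (Q i) l) :
    (∏ i ∈ s, f i) * g ∈ Gam (∑ i ∈ s, Q i) (s.card * l + c0) := by
  classical
  induction s using Finset.induction_on with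
  | empty => simpa using hg
  | insert i s hi ih =>
    rw [Finset.prod_insert hi, Finset.sum_insert hi, Finset.card_insert_of_notMem hi, add_mul,
      one_mul, add_comm _ l, mul_assoc, add_assoc]
    exact h.mul _ _ _ _ _ (hf i (Finset.mem_insert_self _ _)) _
      (ih fun j hj => hf j (Finset.mem_insert_of_mem hj))

variable {E : Type} [Field E] [Algebra E F]

/-- elimination with derivations whose constants are `E` -/
theorem kill (h : Sys Gam c0) {w : ℕ} (d : Fin w → Derivation E F F) {be : Fin w → F}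
    (b0 : ∀ l, be l ≠ 0)
    (hc : ∀ x, (∀ i, d i x = 0) → x ∈ range (algebraMap E F))
    (hd : ∀ c, ∃ c', ∀ i x, ∀ u ∈ Gam x c, ∀ v ∈ Gam x c,
      be i * (u * d i v - v * d i u) ∈ Gam (x + x) c') (r : ℕ) :
    ∀ c, ∃ l, ∀ (X : ℕ) (I : Type) (e : Fin r → I → F) (e0 : I → F), (∀ j i, e j i ∈ Gam X c) →
      e0 ∉ Submodule.span E (range e) → ∃ (Q : ℕ) (Δ : (I → F) →ₗ[E] F), (∀ j, Δ (e j) = 0) ∧
        Δ e0 ≠ 0 ∧ ∀ v, (∀ i, v i ∈ Gam X c) → Δ v ∈ Gam Q l := by
  induction r with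
  | zero =>
    refine fun c => ⟨c, fun X I e e0 _ h0 => ?_⟩
    obtain ⟨i, hi⟩ := Function.ne_iff.1 (show e0 ≠ 0 from fun a => h0 (a ▸ zero_mem _))
    exact ⟨X, LinearMap.proj i, fun j => j.elim0, hi, fun v hv => hv i⟩
  | succ r ih =>
    intro c
    obtain ⟨c', hc'⟩ := hd c
    obtain ⟨l1, h1⟩ := ih c
    obtain ⟨l2, h2⟩ := ih (max c' (c + c))
    refine ⟨max l1 l2, fun X I e e0 he h0 => ?_⟩
    have sub : Submodule.span E (range fun j : Fin r => e j.succ) ≤ Submodule.span E (range e) :=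
      Submodule.span_mono (range_subset_iff.2 fun j => ⟨_, rfl⟩)
    by_cases z : e 0 = 0
    · obtain ⟨Q, Δ, p1, p2, p3⟩ := h1 X I (fun j => e j.succ) e0 (fun j => he _) fun a => h0 (sub a)
      exact ⟨Q, Δ, fun j => Fin.cases (by rw [z, map_zero]) p1 j, p2,
        fun v hv => h.mono _ _ _ (le_max_left _ _) (p3 v hv)⟩
    obtain ⟨i0, hi⟩ := Function.ne_iff.1 z
    have u0 : e 0 i0 ≠ 0 := hi
    let Φ : (I → F) →ₗ[E] (Fin w ⊕ I → F) :=
      { toFun := fun v => Sum.elim (fun l => be l * (e 0 i0 * d l (v i0) - v i0 * d l (e 0 i0)))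
          fun i => v i * e 0 i0 - v i0 * e 0 i
        map_add' := fun a b => funext fun i => by
          cases i <;> simp only [Sum.elim_inl, Sum.elim_inr, Pi.add_apply, map_add] <;> ring
        map_smul' := fun a b => funext fun i => by
          cases i <;> simp only [Sum.elim_inl, Sum.elim_inr, Pi.smul_apply, RingHom.id_apply,
            Derivation.map_smul] <;> simp only [Algebra.smul_def] <;> ring }
    have f1 : ∀ v l, Φ v (.inl l) = be l * (e 0 i0 * d l (v i0) - v i0 * d l (e 0 i0)) :=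
      fun _ _ => rfl
    have f2 : ∀ v i, Φ v (.inr i) = v i * e 0 i0 - v i0 * e 0 i := fun _ _ => rfl
    have m : ∀ v, (∀ i, v i ∈ Gam X c) → ∀ i, Φ v i ∈ Gam (X + X) (max c' (c + c)) := by
      rintro v hv (l | i)
      · exact h.mono _ _ _ (le_max_left _ _) (hc' l X _ (he 0 i0) _ (hv i0))
      · exact h.mono _ _ _ (le_max_right _ _)
          (sub_mem (h.mul _ _ _ _ _ (hv i) _ (he 0 i0)) (h.mul _ _ _ _ _ (hv i0) _ (he 0 i)))
    have ker : ∀ v, Φ v = 0 → v ∈ Submodule.span E (range e) := fun v hv => by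
      obtain ⟨γ, hγ⟩ := hc (v i0 / e 0 i0) fun l => by
        have a := (mul_eq_zero.1 ((f1 v l).symm.trans (congrFun hv _))).resolve_left (b0 l)
        rw [Derivation.leibniz_div, smul_eq_mul, smul_eq_mul, smul_eq_mul, a, mul_zero]
      have : v = γ • e 0 := funext fun i => by
        have a := (f2 v i).symm.trans (congrFun hv _)
        rw [Pi.smul_apply, Algebra.smul_def, hγ]
        field_simp
        exact sub_eq_zero.1 a
      exact this ▸ Submodule.smul_mem _ _ (Submodule.subset_span ⟨0, rfl⟩)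
    obtain ⟨Q, Δ, p1, p2, p3⟩ := h2 (X + X) (Fin w ⊕ I) (fun j => Φ (e j.succ)) (Φ e0)
      (fun j => m _ (he _)) fun a => by
        rw [show (range fun j : Fin r => Φ (e j.succ)) = Φ '' range fun j : Fin r => e j.succ from
          range_comp Φ _, Submodule.span_image] at a
        obtain ⟨v, hv, b⟩ := a
        have := add_mem (ker (e0 - v) (by rw [map_sub, b, sub_self])) (sub hv)
        rw [sub_add_cancel] at this
        exact h0 this
    refine ⟨Q, Δ.comp Φ, fun j => Fin.cases ?_ p1 j, p2,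
      fun v hv => h.mono _ _ _ (le_max_right _ _) (p3 _ (m v hv))⟩
    have : Φ (e 0) = 0 := funext fun i => by
      cases i
      · rw [f1, sub_self, mul_zero]; rfl
      · rw [f2, mul_comm, sub_self]; rfl
    rw [LinearMap.comp_apply, this, map_zero]

theorem om0 (h : Sys Gam c0) {w : ℕ} (d : Fin w → Derivation E F F) {be : Fin w → F}
    (b0 : ∀ l, be l ≠ 0) (hc : ∀ x, (∀ i, d i x = 0) → x ∈ range (algebraMap E F))
    (hd : ∀ c, ∃ c', ∀ i x, ∀ u ∈ Gam x c, ∀ v ∈ Gam x c,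
      be i * (u * d i v - v * d i u) ∈ Gam (x + x) c') (c ρ : ℕ) :
    ∃ l, ∀ (X : ℕ) (e : Fin ρ → F), LinearIndependent E e → (∀ j, e j ∈ Gam X c) →
      ∃ Q, ∃ Om ∈ Gam Q l, Om ≠ 0 ∧ ∀ y : Fin ρ → E, ∑ j, y j • e j ∈ Gam X c →
        ∀ j, algebraMap E F (y j) * Om ∈ Gam Q l := by
  obtain ⟨g, hg, g0⟩ := h.gen 0
  cases ρ with
  | zero => exact ⟨c0, fun _ _ _ _ => ⟨0, g, hg, g0, fun _ _ j => j.elim0⟩⟩
  | succ r =>
  obtain ⟨l, hl⟩ := kill h d b0 hc hd r c
  refine ⟨(r + 1) * l + c0, fun X e hi he => ?_⟩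
  have one : ∀ j, ∃ (Q : ℕ) (Δ : F →ₗ[E] F), (∀ i, i ≠ j → Δ (e i) = 0) ∧ Δ (e j) ≠ 0 ∧
      ∀ v ∈ Gam X c, Δ v ∈ Gam Q l := fun j => by
    let c1 : F →ₗ[E] Unit → F := LinearMap.pi fun _ => LinearMap.id
    obtain ⟨Q, Δ, p1, p2, p3⟩ := hl X Unit (fun i => c1 (e (j.succAbove i))) (c1 (e j))
      (fun i _ => he _) fun a => by
        have b := Submodule.mem_map_of_mem (f := (LinearMap.proj () : (Unit → F) →ₗ[E] F)) a
        rw [Submodule.map_span, ← range_comp] at b
        refine hi.notMem_span_image (s := {j}ᶜ) (x := j) (by simp) (Submodule.span_mono ?_ b)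
        rintro _ ⟨i, rfl⟩
        exact ⟨_, Fin.succAbove_ne j i, rfl⟩
    refine ⟨Q, Δ.comp c1, fun i hi => ?_, p2, fun v hv => p3 _ fun _ => hv⟩
    obtain ⟨i, rfl⟩ := Fin.exists_succAbove_eq hi
    exact p1 i
  choose Q Δ p1 p2 p3 using one
  refine ⟨∑ j, Q j, (∏ j, Δ j (e j)) * g, ?_,
    mul_ne_zero (Finset.prod_ne_zero_iff.2 fun j _ => p2 j) g0, fun y hy j => ?_⟩
  · simpa using prod h hg Finset.univ fun j _ => p3 j _ (he j)
  · have a := p3 j _ hy
    rw [map_sum, Finset.sum_eq_single j (fun i _ hi => by rw [map_smul, p1 j i hi, smul_zero])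
      (by simp), map_smul, Algebra.smul_def] at a
    have b := h.mul _ _ _ _ _ a _ (prod h hg (Finset.univ.erase j) fun i _ => p3 i _ (he i))
    rw [Finset.add_sum_erase _ Q (Finset.mem_univ j), mul_assoc, ← mul_assoc (Δ j (e j)),
      Finset.mul_prod_erase _ (fun i => Δ i (e i)) (Finset.mem_univ j)] at b
    refine h.mono _ _ _ (le_of_eq ?_) b
    simp [add_mul, add_comm, add_left_comm]

theorem vert [Algebra.EssFiniteType ℂ F] (K : IntermediateField ℂ F) :
    ∃ (w : ℕ) (d : Fin w → Derivation K F F), ∀ x, (∀ i, d i x = 0) → IsAlgebraic K x := by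
  obtain ⟨t, ht⟩ := IntermediateField.fg_top (F := ℂ) (E := F)
  have h : IntermediateField.adjoin K (range fun i => (t.equivFin.symm i : F)) = ⊤ := by
    rw [show (range fun i => (t.equivFin.symm i : F)) = t from by
      rw [← Subtype.range_coe (s := (t : Set F))]
      exact t.equivFin.symm.surjective.range_comp _]
    exact eq_top_iff.2 fun x _ => (IntermediateField.adjoin_le_iff.2
      (IntermediateField.subset_adjoin K _) :
        IntermediateField.adjoin ℂ (t : Set F) ≤ (IntermediateField.adjoin K _).restrictScalars ℂ)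
      (ht.ge trivial)
  have : Algebra.IsAlgebraic (Algebra.adjoin K (range fun i => (t.equivFin.symm i : F))) F := by
    rw [← IntermediateField.isAlgebraic_adjoin_iff_top, h, Algebra.isAlgebraic_iff_isIntegral]
    exact Algebra.isIntegral_of_surjective IntermediateField.topEquiv.surjective
  exact KB.A26.exists_vert (z := fun i => (t.equivFin.symm i : F))

end OM

theorem bOM : St_OM := by
  intro F _ _ _ G c0 K hS hD hK hB c
  obtain ⟨w, d, hd⟩ := OM.vert K
  choose be b0 a hb using fun l => hD ((d l).restrictScalars ℂ)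
  have H := OM.om0 hS d b0 (fun x hx => ⟨⟨x, hK x (hd x hx)⟩, rfl⟩) (fun c =>
    ⟨2 * c + Finset.univ.sup a, fun i x u hu v hv => two_mul x ▸ hS.mono _ _ _
      (Nat.add_le_add_left (Finset.le_sup (Finset.mem_univ i)) _) (hb i x c u hu v hv)⟩) c
  choose l hl using H
  obtain ⟨r, hr⟩ := hB c
  refine ⟨(Finset.range (r + 1)).sup l, fun x => ?_⟩
  obtain ⟨n, hn, e, he, hi, hs⟩ := RAT.basis (E := K) (G x c : Set F) (hr x)
  have le := Finset.le_sup (f := l) (Finset.mem_range.2 (Nat.lt_succ_of_le hn))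
  obtain ⟨Q, Om, o1, o2, o3⟩ := hl n x e hi he
  obtain ⟨π, hπ⟩ := hi.repr.exists_extend
  have key : ∀ g ∈ G x c, ∑ i, π g i • e i = g := fun g hg => by
    have h1 : π g = hi.repr ⟨g, hs g hg⟩ := LinearMap.congr_fun hπ ⟨g, hs g hg⟩
    rw [h1, ← Finsupp.sum_fintype (hi.repr _) (fun i a => a • e i) fun _ => zero_smul _ _]
    exact hi.linearCombination_repr _
  exact ⟨Q, n, Om, e, fun i => (Finsupp.lapply i).comp π, hS.mono _ _ _ le o1, o2, fun g hg =>
    ⟨(key g hg).symm, fun i => hS.mono _ _ _ le (o3 (π g) ((key g hg).symm ▸ hg) i)⟩⟩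

end Pool.Agent.Lib.KBE
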