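import Pool.Agent.Lib.KBE.Blue
import Pool.Agent.Lib.KB.DEG26

/-! Rows RAT and DEG. -/

open Set

noncomputable section

namespace Pool.Agent.Lib.KBE

namespace RAT

theorem basis {E F : Type} [Field E] [Field F] [Algebra E F] (S : Set F) {r : ℕ}
    (h : ∀ n (e : Fin n → F), (∀ i, e i ∈ S) → LinearIndependent E e → n ≤ r) :
    ∃ n ≤ r, ∃ e : Fin n → F, (∀ i, e i ∈ S) ∧ LinearIndependent E e ∧
      ∀ g ∈ S, g ∈ Submodule.span E (range e) := by
  obtain ⟨b, hb, hs, hi⟩ := exists_linearIndependent E S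
  have : Finite b := by
    by_contra n
    have := not_finite_iff_infinite.1 n
    let f := Fin.valEmbedding.trans (Infinite.natEmbedding b) (α := Fin (r + 1))
    exact Nat.not_succ_le_self r
      (h _ (fun i => f i) (fun i => hb (f i).2) (hi.comp f f.injective))
  obtain ⟨n, ⟨q⟩⟩ := Finite.exists_equiv_fin b
  have hi' := hi.comp q.symm q.symm.injective
  refine ⟨n, h n _ (fun i => hb (q.symm i).2) hi', Subtype.val ∘ q.symm,
    fun i => hb (q.symm i).2, hi', fun g hg => ?_⟩
  rw [range_comp, q.symm.surjective.range_eq, image_univ, Subtype.range_coe, hs]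
  exact Submodule.subset_span hg

end RAT

theorem bRAT : St_RAT := by
  intro F _ _ G c0 K hS hB c
  choose g hg g0 using hS.gen
  obtain ⟨r, hr⟩ := hB (c + c0)
  obtain ⟨U, hU, H⟩ := KB.A26.ratio (E := K) (fun x => G x c) (fun x => G x (c + c0)) g g0
    (fun x y u hu => hS.mul _ _ _ _ u hu _ (hg y)) (r := r) fun x => by
      obtain ⟨n, hn, e, -, -, h⟩ := RAT.basis (E := K) (G x (c + c0) : Set F) (hr x)
      refine ⟨fun i => if a : i.1 < n then e ⟨i, a⟩ else 0, fun u hu =>
        Submodule.span_mono ?_ (h u hu)⟩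
      rintro _ ⟨i, rfl⟩
      exact ⟨i.castLE hn, dif_pos i.2⟩
  exact ⟨U, (Module.Finite.iff_fg).2 hU, H⟩

end Pool.Agent.Lib.KBE
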