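import Pool.Agent.Lib.KBE.B_R2
import Pool.Agent.Lib.KBE.B_OM
import Pool.Agent.Lib.KBE.B_MRG
import Pool.Agent.Lib.KBE.B_EV
import Pool.Agent.Lib.KBE.B_RAT
import Pool.Agent.Lib.KBE.B_DEG
import Pool.Agent.Lib.KBE.B_DER
import Pool.Agent.Lib.KBE.B_HYP
import Pool.Agent.Lib.KBE.B_FG

/-! Blocks E and F, assembled. -/

namespace Pool.Agent.Lib.KBE

theorem aEF : St_EF := ef_of bR2 bOM bMRG bEV bRAT bDEG

end Pool.Agent.Lib.KBE
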