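import Pool.Agent.Lib.KBE.R2b

/-! The subfield, the rank bound and the isolated diagonal. -/

open scoped TensorProduct
open Set

noncomputable section

namespace Pool.Agent.Lib.KBE

namespace R2
open A35.G

theorem fin_quot {L R : Type} [Field L] [CommRing R] [Algebra L R] [IsNoetherianRing R]
    (m : Ideal R) (h : ∀ y : R, ∃ c : L, y - algebraMap L R c ∈ m) (s : ℕ) :
    ∃ U : Submodule L R, U.FG ∧ U ⊔ (m ^ s).restrictScalars L = ⊤ := by
  induction s with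
  | zero => exact ⟨⊥, Submodule.fg_bot, by simp⟩
  | succ s ih =>
    obtain ⟨U, h1, h2⟩ := ih
    obtain ⟨T, hT⟩ : (m ^ s).FG := IsNoetherian.noetherian _
    refine ⟨U ⊔ Submodule.span L (T : Set R), h1.sup (Submodule.fg_span T.finite_toSet), ?_⟩
    rw [eq_top_iff, ← h2, sup_assoc]
    refine sup_le_sup_left (fun y hy => ?_) U
    have h3 : ∀ t ∈ (T : Set R), t ∈ m ^ s := fun t ht => hT ▸ Ideal.subset_span ht
    rw [Submodule.restrictScalars_mem, ← hT] at hy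
    obtain ⟨f, t, k1, -, rfl⟩ := Submodule.mem_span_iff_exists_finset_subset.1 hy
    refine sum_mem fun x hx => ?_
    obtain ⟨c, hc⟩ := h (f x)
    rw [smul_eq_mul, show f x * x = c • x + x * (f x - algebraMap L R c) by
      rw [Algebra.smul_def]; ring]
    refine add_mem (Submodule.mem_sup_left (Submodule.smul_mem _ _ (Submodule.subset_span (k1 hx))))
      (Submodule.mem_sup_right ?_)
    rw [Submodule.restrictScalars_mem, pow_succ]
    exact Ideal.mul_mem_mul (h3 x (k1 hx)) hc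

theorem down {A B : Type} [CommRing A] [CommRing B] (j : A →+* B) (hj : j.Flat) {J : Ideal A}
    {P : Ideal B} (hP : P.IsPrime)
    (h : ∀ Q : Ideal B, Q.IsPrime → Q ≤ P → J ≤ Q.comap j → Q = P) {σ : A} (hσ : j σ ∈ P) :
    ∃ (N : ℕ) (g : A), j g ∉ P ∧ g * σ ^ N ∈ J := by
  by_contra hc
  push Not at hc
  let _ : Algebra A B := j.toAlgebra
  have : Module.Flat A B := hj
  obtain ⟨q, q1, q2, q3⟩ := Ideal.exists_le_prime_disjoint J
    ((P.under A).primeCompl ⊔ Submonoid.powers σ) (Set.disjoint_left.2 fun y hy hy' => by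
      obtain ⟨g, hg, _, ⟨N, rfl⟩, rfl⟩ := Submonoid.mem_sup.1 hy'
      exact hc N g hg hy)
  have q4 : q ≤ P.under A := fun y hy => by_contra fun h0 =>
    Set.disjoint_left.1 q3 hy (Submonoid.mem_sup_left h0)
  obtain ⟨Q, Q1, Q2, Q3⟩ := Ideal.exists_ideal_le_liesOver_of_le P q4
  have q5 : q = P.under A := by rw [Q3.over, h Q Q2 Q1 (q2.trans Q3.over.le)]
  exact Set.disjoint_left.1 q3 (q5.ge hσ) (Submonoid.mem_sup_right (Submonoid.mem_powers σ))

theorem down' {A B C D : Type} [Field A] [Field B] [Field C] [Field D] [Algebra ℂ A]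
    [Algebra ℂ B] [Algebra ℂ C] [Algebra ℂ D] (f : A →ₐ[ℂ] C) (g : B →ₐ[ℂ] D)
    (S : Set (A ⊗[ℂ] B)) {P : Ideal (C ⊗[ℂ] D)} (hP : P.IsPrime)
    (h : ∀ Q : Ideal (C ⊗[ℂ] D), Q.IsPrime → Q ≤ P →
      (∀ y ∈ S, Algebra.TensorProduct.map f g y ∈ Q) → Q = P) {σ : A ⊗[ℂ] B}
    (hσ : Algebra.TensorProduct.map f g σ ∈ P) : ∃ (N : ℕ) (u : A ⊗[ℂ] B),
      Algebra.TensorProduct.map f g u ∉ P ∧ u * σ ^ N ∈ Ideal.span S :=
  down (Algebra.TensorProduct.map f g).toRingHom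
    (RingHom.Flat.tensorProductMap (RingHom.Flat.of_isField (Field.toIsField A) _)
      (RingHom.Flat.of_isField (Field.toIsField B) _)) hP
    (fun Q k1 k2 k3 => h Q k1 k2 fun _ hy => k3 (Ideal.subset_span hy)) hσ

variable {F L : Type} [Field F] [Field L] [Algebra ℂ F] [Algebra ℂ L]

theorem rank_le [IsNoetherianRing (L ⊗[ℂ] F)] (ι : F →ₐ[ℂ] L) (s : ℕ) : ∃ r, ∀ (n : ℕ)
    (e : Fin n → F), (∀ c : Fin n → L, ∑ i, c i ⊗ₜ[ℂ] e i ∈ cen L ι ^ s → ∀ i, c i = 0) →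
      n ≤ r := by
  obtain ⟨U, h1, h2⟩ := fin_quot (L := L) (cen L ι) (fun y => ⟨_, REG.sub_ev ι y⟩) s
  let W : Submodule L (L ⊗[ℂ] F) := (cen L ι ^ s).restrictScalars L
  have : Module.Finite L ((L ⊗[ℂ] F) ⧸ W) :=
    ⟨(Submodule.map_mkQ_eq_top W U).2 (by rwa [sup_comm]) ▸ h1.map W.mkQ⟩
  refine ⟨Module.finrank L ((L ⊗[ℂ] F) ⧸ W), fun n e he => ?_⟩
  have h3 : LinearIndependent L fun i => W.mkQ ((1 : L) ⊗ₜ[ℂ] e i) := by
    refine Fintype.linearIndependent_iff.2 fun c hc => he c ?_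
    simp only [← map_smul, ← map_sum, TensorProduct.smul_tmul', smul_eq_mul, mul_one] at hc
    exact (Submodule.Quotient.mk_eq_zero W).1 hc
  simpa using h3.fintype_card_le_finrank

variable [Algebra F L] [IsScalarTower ℂ F L]

theorem exists_min [IsNoetherianRing (L ⊗[ℂ] F)] (V : ℕ → Submodule ℂ F) :
    ∃ s P, Min L V s P := by
  obtain ⟨P, ⟨h1, h2, s, h3⟩, h4⟩ := (InvImage.wf Ideal.height wellFounded_lt).has_min
    {P : Ideal (L ⊗[ℂ] F) | P.IsPrime ∧ P ≤ cen L (io F L) ∧ ∃ s, Lam (io F L) V s ⊆ P}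
    ⟨cen L (io F L), inferInstance, le_rfl, 1, fun x hx => by simpa using hx.1⟩
  exact ⟨s, P, h1, h3, h2, fun n Q k1 k2 k3 =>
    Ideal.eq_of_le_of_height_le Q k3 (not_lt.1 (h4 Q ⟨k1, k3.trans h2, n, k2⟩))⟩

theorem Min.up {V : ℕ → Submodule ℂ F} {s s' : ℕ} {P : Ideal (L ⊗[ℂ] F)} (h : Min L V s P)
    (hs : s ≤ s') : Min L V s' P := ⟨h.pr, (lam_anti _ hs).trans h.ge, h.le, h.mn⟩

theorem Min.le_of [IsAlgClosed L] [IsGalois F L] {V : ℕ → Submodule ℂ F} {s s' : ℕ}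
    {P P' : Ideal (L ⊗[ℂ] F)} (h : Min L V s P) (h1 : P'.IsPrime) (h2 : Lam (io F L) V s' ⊆ P')
    (h3 : P' ≤ cen L (io F L)) : P ≤ P' := by
  have h' := h.up (le_max_left s s')
  obtain ⟨K, k1, -, k3⟩ := struct h'
  exact fun f hf => mem_of_con (K := K) fun π => inc_mem
    (fun c hc => k1 c hc P' h1 ((lam_anti _ (le_max_right s s')).trans h2) h3)
    (con_mem (fun c hc => k1 c hc P h'.pr h'.ge h'.le) k3 hf π)

theorem pow_bcg {A B C : Type} [Field A] [Field B] [Field C] [Algebra ℂ A] [Algebra ℂ B]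
    [Algebra ℂ C] {φ : A →ₐ[ℂ] C} (b : B →ₐ[ℂ] A) {y : A ⊗[ℂ] B} {n : ℕ}
    (h : bcg B φ y ∈ cen C (φ.comp b) ^ (n + 1)) : y ∈ cen A b ^ n := by
  rw [cen_bcg, ← Ideal.map_pow] at h
  exact Ideal.pow_le_pow_right n.le_succ (mem_of_bcg h)

theorem iso {G : ℕ → ℕ → Submodule ℂ F} {l s : ℕ} {P : Ideal (L ⊗[ℂ] F)}
    (h : Min L (fun x => G x l) s P) {K : IntermediateField ℂ F}
    (h1 : ∀ c ∈ K, io F L c ⊗ₜ[ℂ] (1 : F) - (1 : L) ⊗ₜ[ℂ] c ∈ P)
    (h2 : ∀ f ∈ P, ∀ π : F →ₗ[K] K, con L π f ∈ cen L ((io F L).comp K.val)) (n : ℕ) :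
    Iso K G l n := by
  intro σ hσ
  let j : F ⊗[ℂ] K →ₐ[ℂ] L ⊗[ℂ] F := Algebra.TensorProduct.map (io F L) K.val
  have j1 : ∀ y, j y = inc L K (bcg K (io F L) y) := fun y => by
    induction y with
    | zero => simp
    | add y z k1 k2 => simp only [map_add, k1, k2]
    | tmul c e => rfl
  have j2 : ∀ y, j y = bcg F (io F L) (inc F K y) := fun y => by
    induction y with
    | zero => simp
    | add y z k1 k2 => simp only [map_add, k1, k2]
    | tmul c e => rfl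
  have j4 : ∀ (π : F →ₗ[K] K) (y : F ⊗[ℂ] F),
      con L π (bcg F (io F L) y) = bcg K (io F L) (con F π y) := fun π y => by
    induction y with
    | zero => simp
    | add y z k1 k2 => simp only [map_add, k1, k2]
    | tmul c e => rfl
  have j5 : ∀ y ∈ dg K, j y ∈ P := fun y hy => by
    rw [j1]
    refine inc_mem h1 ?_
    rw [cen_bcg]
    exact Ideal.mem_map_of_mem _ hy
  have H : ∀ Q : Ideal (L ⊗[ℂ] F), Q.IsPrime → Q ≤ P →
      (∀ y ∈ {y | ∃ (x : ℕ) (f : F ⊗[ℂ] F) (π : F →ₗ[K] K), f ∈ tn F (G x l) ∧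
        (∀ π' : F →ₗ[K] K, con F π' f ∈ dg K ^ n) ∧ y = con F π f}, j y ∈ Q) → Q = P := by
    intro Q Q2 Q1 q2
    refine h.mn (s + n) Q Q2 (lam_le (φ := io F L) (b := AlgHom.id ℂ F) fun y hy => ?_) Q1
    obtain ⟨x, hx⟩ := hy.2
    have k0 : bcg F (io F L) y ∈ Lam (io F L) (fun x => G x l) (s + n) :=
      lam_bcg (φ := io F L) (b := AlgHom.id ℂ F) hy
    have k1 : ∀ π : F →ₗ[K] K, con F π y ∈ dg K ^ n := fun π => by
      have k2 := con_pow (K := K) (ι := io F L) (fun f hf => h2 f (h.ge hf)) n _ k0 π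
      rw [j4] at k2
      exact pow_bcg K.val k2
    refine mem_of_con (K := K) (I := Q.comap (bcg F (io F L))) fun π => ?_
    rw [Ideal.mem_comap, ← j2]
    exact q2 _ ⟨x, y, π, hx, k1, rfl⟩
  obtain ⟨N, g, g1, g2⟩ := down' (io F L) K.val _ h.pr H (j5 σ hσ)
  exact ⟨N, g, fun hg => g1 (j5 g hg), g2⟩

end R2

open A35.G R2 in
theorem bR2 : St_R2 := by
  intro F _ _ _ G hG
  let L := AlgebraicClosure F
  have : CharZero F := charZero_of_injective_algebraMap (algebraMap ℂ F).injective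
  have : IsNoetherianRing (L ⊗[ℂ] F) := Algebra.EssFiniteType.isNoetherianRing L _
  choose s P hP using fun l => exists_min (L := L) fun x => G x l
  have h1 : ∀ l l' n, l ≤ l' → Lam (io F L) (fun x => G x l) n ⊆ Lam (io F L) (fun x => G x l') n :=
    fun l l' n h y hy => ⟨hy.1, hy.2.imp fun x hx => tn_mono (hG x l l' h) hx⟩
  have h2 : Monotone P := fun l l' h =>
    (hP l).le_of (hP l').pr ((h1 l l' _ h).trans (hP l').ge) (hP l').le
  obtain ⟨l, hl⟩ := monotone_stabilizes_iff_noetherian.2 inferInstance ⟨P, h2⟩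
  obtain ⟨K, k1, k2, k3⟩ := struct (hP l)
  have k4 := fun c hc => k1 c hc _ (hP l).pr (hP l).ge (hP l).le
  refine ⟨K, k2, fun c => ?_, l, iso (hP l) k4 fun f hf => con_mem k4 k3 hf⟩
  obtain ⟨r, hr⟩ := rank_le (io F L) (s c)
  refine ⟨r, fun x n e he hi => hr n e fun d hd i => k3 _ e hi Finset.univ d ?_ i
    (Finset.mem_univ i)⟩
  have h3 : P c ≤ P l := (h2 (le_max_left c l)).trans (hl _ (le_max_right c l)).ge
  exact h3 ((hP c).ge ⟨hd, x, sum_mem fun i _ => ⟨d i ⊗ₜ ⟨e i, he i⟩, rfl⟩⟩)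

end Pool.Agent.Lib.KBE
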