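import Pool.Agent.Lib.KBE.Blue
import Pool.Agent.Lib.MP_3c72fe_ag.Der

/-! One more order of vanishing, by an Euler operator. -/

open scoped TensorProduct
open Set

noncomputable section

namespace Pool.Agent.Lib.KBE

namespace REG
open A35.G

/-- A derivation along a map of fields extends. -/
theorem der_ext {F L : Type} [Field F] [Field L] [Algebra ℂ F] [Algebra ℂ L] (b : F →ₐ[ℂ] L)
    (d : F →ₗ[ℂ] L) (hd : ∀ x y, d (x * y) = b x * d y + b y * d x) :
    ∃ D : Derivation ℂ L L, ∀ x, D (b x) = d x := by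
  let _ : Algebra F L := b.toRingHom.toAlgebra
  have : CharZero F := charZero_of_injective_algebraMap (algebraMap ℂ F).injective
  have := MP_3c72fe_ag.fs_field F L
  obtain ⟨δ, hδ⟩ := MP_3c72fe_ag.exists_ext (R := F) (E := L) d.toAddMonoidHom hd
  have h1 : d 1 = 0 := by
    have := hd 1 1
    simp only [mul_one, map_one, one_mul] at this
    exact left_eq_add.1 this
  have h2 : ∀ c : ℂ, δ (algebraMap ℂ L c) = 0 := fun c => by
    rw [← b.commutes]
    refine (hδ _).trans ?_
    change d (algebraMap ℂ F c) = 0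
    rw [Algebra.algebraMap_eq_smul_one, map_smul, h1, smul_zero]
  let D : L →ₗ[ℂ] L :=
    { toFun := δ
      map_add' := fun x y => map_add δ x y
      map_smul' := fun c x => by
        rw [Algebra.smul_def, δ.leibniz, h2, smul_zero, add_zero, RingHom.id_apply,
          smul_eq_mul, Algebra.smul_def] }
  exact ⟨Derivation.mk' D fun x y => δ.leibniz x y, hδ⟩

theorem fg_pow {R : Type} [CommRing R] (m : Ideal R) (N : ℕ) (x : R) (hx : x ∈ m ^ N) :
    ∃ I : Ideal R, I ≤ m ∧ I.FG ∧ x ∈ I ^ N := by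
  induction N generalizing x with
  | zero => exact ⟨⊥, bot_le, Submodule.fg_bot, by simp⟩
  | succ N ih =>
    rw [pow_succ] at hx
    refine Submodule.mul_induction_on hx (fun a ha y hy => ?_) fun a y ha hy => ?_
    · obtain ⟨I, h1, h2, h3⟩ := ih a ha
      refine ⟨I ⊔ Ideal.span {y}, sup_le h1 ((Ideal.span_singleton_le_iff_mem _).2 hy),
        Submodule.FG.sup h2 (Submodule.fg_span_singleton y), ?_⟩
      rw [pow_succ]
      exact Ideal.mul_mem_mul (Ideal.pow_right_mono le_sup_left N h3)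
        (Ideal.mem_sup_right (Ideal.mem_span_singleton_self y))
    · obtain ⟨I, h1, h2, h3⟩ := ha
      obtain ⟨J, k1, k2, k3⟩ := hy
      exact ⟨I ⊔ J, sup_le h1 k1, Submodule.FG.sup h2 k2, add_mem (Ideal.pow_right_mono le_sup_left _ h3)
        (Ideal.pow_right_mono le_sup_right _ k3)⟩

theorem euler {R : Type} [CommRing R] {m : Ideal R} {T : Set R} (hT : ∀ y ∈ T, y ∈ m)
    (E : R → R) (ha : ∀ x y, E (x + y) = E x + E y) (hm : ∀ x y, E (x * y) = x * E y + y * E x)
    (h0 : ∀ x, E x ∈ m) (h1 : ∀ y ∈ T, E y - y ∈ m ^ 2) (N : ℕ) (x : R)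
    (hx : x ∈ Ideal.span T ^ N) : E x - N * x ∈ m ^ (N + 1) := by
  have hI : Ideal.span T ≤ m := Ideal.span_le.2 hT
  have h2 : ∀ y ∈ Ideal.span T, E y - y ∈ m ^ 2 := fun y hy => by
    induction hy using Submodule.span_induction with
    | mem y hy => exact h1 y hy
    | zero =>
      have : E 0 = 0 := by simpa using ha 0 0
      simp [this]
    | add y z _ _ k1 k2 =>
      rw [ha, show E y + E z - (y + z) = (E y - y) + (E z - z) by ring]
      exact add_mem k1 k2
    | smul r y hy k =>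
      rw [smul_eq_mul, hm, show r * E y + y * E r - r * y = r * (E y - y) + y * E r by ring]
      exact add_mem (Ideal.mul_mem_left _ _ k) (by rw [pow_two]; exact Ideal.mul_mem_mul (hI hy) (h0 r))
  induction N generalizing x with
  | zero => simpa using h0 x
  | succ N ih =>
    rw [pow_succ] at hx
    refine Submodule.mul_induction_on hx (fun a ha' y hy => ?_) fun a y k1 k2 => ?_
    · rw [hm, show a * E y + y * E a - ((N + 1 : ℕ) : R) * (a * y) =
        a * (E y - y) + (E a - N * a) * y by push_cast; ring]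
      refine add_mem ?_ ?_
      · rw [show N + 1 + 1 = N + 2 from rfl, pow_add]
        exact Ideal.mul_mem_mul (Ideal.pow_right_mono hI N ha') (h2 y hy)
      · rw [pow_succ _ (N + 1)]
        exact Ideal.mul_mem_mul (ih a ha') (hI hy)
    · rw [ha, show E a + E y - ((N + 1 : ℕ) : R) * (a + y) =
        (E a - ((N + 1 : ℕ) : R) * a) + (E y - ((N + 1 : ℕ) : R) * y) by ring]
      exact add_mem k1 k2

theorem coords {L W : Type} [Field L] [AddCommGroup W] [Module L W] (U : Submodule L W)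
    [FiniteDimensional L U] : ∃ (n : ℕ) (w : Fin n → U) (l : Fin n → W →ₗ[L] L),
      ∀ u ∈ U, u = ∑ i, l i u • (w i : W) := by
  obtain ⟨p, hp⟩ := U.subtype.exists_leftInverse_of_injective U.ker_subtype
  let B := Module.finBasis L U
  refine ⟨_, B, fun i => (B.coord i).comp p, fun u hu => ?_⟩
  have h1 : p u = ⟨u, hu⟩ := DFunLike.congr_fun hp ⟨u, hu⟩
  have h2 := congrArg U.subtype (B.sum_repr ⟨u, hu⟩)
  simp only [map_sum, map_smul, Submodule.subtype_apply] at h2
  simp only [LinearMap.comp_apply, h1, Module.Basis.coord_apply]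
  exact h2.symm

variable {F L : Type} [Field F] [Field L] [Algebra ℂ F] [Algebra ℂ L] (b : F →ₐ[ℂ] L)

theorem dif_mem (e : F) : b e ⊗ₜ[ℂ] (1 : F) - (1 : L) ⊗ₜ[ℂ] e ∈ cen L b := by
  rw [mem_cen, map_sub, ev_tmul, ev_tmul]
  simp

theorem sub_ev (y : L ⊗[ℂ] F) : y - algebraMap L _ (ev L b y) ∈ cen L b := by
  rw [mem_cen, map_sub, AlgHom.commutes]
  simp

/-- A functional which kills the square of the ideal comes from a left derivation. -/
theorem fun_der (l : L ⊗[ℂ] F →ₗ[L] L) (hl : ∀ y ∈ cen L b ^ 2, l y = 0) :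
    ∃ D : Derivation ℂ L L, ∀ y ∈ cen L b, ev L b (derL F D y) = l y := by
  let d : F →ₗ[ℂ] L :=
    { toFun := fun e => l (b e ⊗ₜ[ℂ] (1 : F) - (1 : L) ⊗ₜ[ℂ] e)
      map_add' := fun x y => by
        rw [← map_add l, map_add b, TensorProduct.add_tmul, TensorProduct.tmul_add]
        congr 1
        ring
      map_smul' := fun c x => by
        rw [map_smul b, ← TensorProduct.smul_tmul', TensorProduct.tmul_smul, ← smul_sub,
          LinearMap.map_smul_of_tower]
        rfl }
  have hs : ∀ (u : L) (y : L ⊗[ℂ] F), l ((u ⊗ₜ[ℂ] (1 : F)) * y) = u * l y := fun u y => by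
    rw [← smul_eq_mul u (l y), ← map_smul, Algebra.smul_def]
    rfl
  obtain ⟨D, hD⟩ := der_ext b d fun x y => by
    change l _ = b x * l _ + b y * l _
    have h1 := hl _ (by rw [pow_two]; exact Ideal.mul_mem_mul (dif_mem b x) (dif_mem b y))
    rw [← hs, ← hs, ← map_add, ← sub_zero (l (_ + _)), ← h1, ← map_sub, map_mul b]
    congr 1
    have e1 : (b x * b y) ⊗ₜ[ℂ] (1 : F) = (b x ⊗ₜ[ℂ] (1 : F)) * (b y ⊗ₜ[ℂ] (1 : F)) := by simp
    have e2 : (1 : L) ⊗ₜ[ℂ] (x * y) = ((1 : L) ⊗ₜ[ℂ] x) * ((1 : L) ⊗ₜ[ℂ] y) := by simp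
    rw [e1, e2]
    ring
  have h2 : ∀ y, ev L b (derL F D y) + l (ev L b y ⊗ₜ[ℂ] (1 : F)) = D (ev L b y) + l y := by
    intro y
    induction y with
    | zero => simp
    | add y z k1 k2 =>
      simp only [map_add, TensorProduct.add_tmul]
      linear_combination k1 + k2
    | tmul u e =>
      have e1 : l (u ⊗ₜ[ℂ] e) = l ((u * b e) ⊗ₜ[ℂ] (1 : F)) - u * d e := by
        change _ = _ - u * l _
        rw [← hs, ← map_sub]
        congr 1
        simp [mul_sub]
      rw [derL_tmul, ev_tmul, ev_tmul, e1]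
      simp only [Algebra.algebraMap_self, RingHom.id_apply, Derivation.leibniz, hD, smul_eq_mul]
      ring
  refine ⟨D, fun y hy => ?_⟩
  have h3 := h2 y
  rw [mem_cen.1 hy] at h3
  simpa using h3

end REG

open A35.G in
theorem bREG : St_REG := by
  intro F L _ _ _ _ b N x hN hx hD
  obtain ⟨I, h1, ⟨T, rfl⟩, h3⟩ := REG.fg_pow _ N x hx
  have hT : ∀ y ∈ (T : Set (L ⊗[ℂ] F)), y ∈ cen L b := fun y hy => h1 (Ideal.subset_span hy)
  let m2 : Submodule L (L ⊗[ℂ] F) := (cen L b ^ 2).restrictScalars L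
  let U : Submodule L ((L ⊗[ℂ] F) ⧸ m2) := (Submodule.span L (T : Set (L ⊗[ℂ] F))).map m2.mkQ
  have : FiniteDimensional L (Submodule.span L (T : Set (L ⊗[ℂ] F))) :=
    FiniteDimensional.span_of_finite L T.finite_toSet
  obtain ⟨n, w, l, hw⟩ := REG.coords U
  choose σ s1 s2 using fun i => (w i).2
  have s3 : ∀ i, σ i ∈ cen L b := fun i =>
    (Submodule.span_le.2 hT : Submodule.span L _ ≤ (cen L b).restrictScalars L) (s1 i)
  choose D hD' using fun i => REG.fun_der b ((l i).comp m2.mkQ) fun y hy => by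
    rw [LinearMap.comp_apply, Submodule.mkQ_apply, (Submodule.Quotient.mk_eq_zero m2).2 hy,
      map_zero]
  have h4 := REG.euler hT (fun y => ∑ i, σ i * derL F (D i) y)
    (fun y z => by simp only [map_add, mul_add, Finset.sum_add_distrib])
    (fun y z => by
      simp only [Derivation.leibniz, smul_eq_mul, Finset.mul_sum, ← Finset.sum_add_distrib]
      exact Finset.sum_congr rfl fun i _ => by ring)
    (fun y => sum_mem fun i _ => Ideal.mul_mem_right _ _ (s3 i)) (fun y hy => by
      have k1 := hw (m2.mkQ y) ⟨y, Submodule.subset_span hy, rfl⟩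
      have k2 : (∑ i, l i (m2.mkQ y) • σ i) - y ∈ m2 := by
        rw [← Submodule.Quotient.mk_eq_zero, ← Submodule.mkQ_apply, map_sub, map_sum, sub_eq_zero]
        simp only [map_smul, s2]
        exact k1.symm
      have k3 : ∑ i, σ i * derL F (D i) y - y = (∑ i, σ i * (derL F (D i) y -
          algebraMap L _ (ev L b (derL F (D i) y)))) + ((∑ i, l i (m2.mkQ y) • σ i) - y) := by
        rw [← add_sub_assoc, ← Finset.sum_add_distrib]
        congr 1
        refine Finset.sum_congr rfl fun i _ => ?_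
        rw [hD' i y (hT y hy), Algebra.smul_def, LinearMap.comp_apply]
        ring
      rw [k3]
      exact add_mem (sum_mem fun i _ => by
        rw [pow_two]; exact Ideal.mul_mem_mul (s3 i) (REG.sub_ev b _)) k2) N x h3
  have h5 : ∑ i, σ i * derL F (D i) x ∈ cen L b ^ (N + 1) := sum_mem fun i _ => by
    rw [pow_succ']
    exact Ideal.mul_mem_mul (s3 i) (hD _)
  have h6 := Ideal.mul_mem_left _ (algebraMap ℂ _ (N : ℂ)⁻¹) (sub_mem h5 h4)
  rwa [sub_sub_cancel, ← mul_assoc, ← map_natCast (algebraMap ℂ (L ⊗[ℂ] F)), ← map_mul,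
    inv_mul_cancel₀ (by exact_mod_cast hN.ne'), map_one, one_mul] at h6

end Pool.Agent.Lib.KBE
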