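import Pool.Agent.Lib.KBE.Blue

/-! Tools for the row R2: reduced tensor products, coordinates, primes below a prime. -/

open scoped TensorProduct
open Set

noncomputable section

namespace Pool.Agent.Lib.KBE.R26

open A35.G

theorem dom {F Θ ι : Type} [Field F] [Field Θ] [Algebra F Θ] :
    IsDomain (FractionRing (MvPolynomial ι F) ⊗[F] Θ) := by
  let R := MvPolynomial ι F
  let L := FractionRing R
  let φ : R ⊗[F] Θ →ₐ[R] L ⊗[F] Θ := Algebra.TensorProduct.map (Algebra.ofId R L) (AlgHom.id F Θ)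
  let _ : Algebra (R ⊗[F] Θ) (L ⊗[F] Θ) := φ.toRingHom.toAlgebra
  have : IsScalarTower R (R ⊗[F] Θ) (L ⊗[F] Θ) := .of_algebraMap_eq fun r => (φ.commutes r).symm
  have hl := IsLocalization.tensorProduct_tensorProduct F Θ (nonZeroDivisors R) L (by
    ext x; simp [RingHom.algebraMap_toAlgebra, φ])
  have : IsDomain (R ⊗[F] Θ) := ((Algebra.TensorProduct.comm F R Θ).toMulEquiv.trans
    (MvPolynomial.algebraTensorAlgEquiv F Θ (σ := ι)).toMulEquiv).isDomain _
  exact IsLocalization.isDomain_of_le_nonZeroDivisors (L ⊗[F] Θ)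
    (M := Algebra.algebraMapSubmonoid (R ⊗[F] Θ) (nonZeroDivisors R))
    (map_le_nonZeroDivisors_of_injective (algebraMap R (R ⊗[F] Θ))
      (Algebra.TensorProduct.includeLeft_injective (S := R) (algebraMap F Θ).injective) le_rfl)

theorem red2 (L K M : Type) [Field L] [CharZero L] [Field K] [Field M] [Algebra L K] [Algebra L M]
    [Algebra.EssFiniteType L K] [Algebra.IsAlgebraic L K] : IsReduced (K ⊗[L] M) := by
  have : Algebra.FormallyUnramified L K := .of_isSeparable L K
  have : IsReduced (M ⊗[L] K) := Algebra.FormallyUnramified.isReduced_of_field M _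
  exact isReduced_of_injective (Algebra.TensorProduct.comm L K M) (AlgEquiv.injective _)

theorem red3 (L K B : Type) [Field L] [CharZero L] [Field K] [CommRing B] [IsDomain B] [Algebra L K]
    [Algebra L B] [Algebra.EssFiniteType L K] [Algebra.IsAlgebraic L K] : IsReduced (K ⊗[L] B) := by
  have := red2 L K (FractionRing B)
  exact isReduced_of_injective
    (Algebra.TensorProduct.map (AlgHom.id L K) (IsScalarTower.toAlgHom L B (FractionRing B)))
    (Module.Flat.lTensor_preserves_injective_linearMap (M := K)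
      (IsScalarTower.toAlgHom L B (FractionRing B)).toLinearMap (IsFractionRing.injective B _))

theorem red4 (F L Θ K : Type) [Field F] [Field L] [CharZero L] [Field Θ] [Field K] [Algebra F Θ]
    [Algebra F K] [Algebra F L] [Algebra L K] [IsScalarTower F L K] [Algebra.EssFiniteType L K]
    [Algebra.IsAlgebraic L K] [IsDomain (L ⊗[F] Θ)] : IsReduced (K ⊗[F] Θ) := by
  have := red3 L K (L ⊗[F] Θ)
  exact isReduced_of_injective (Algebra.TensorProduct.cancelBaseChange F L L K Θ).symm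
    (AlgEquiv.injective _)

/-- A tensor product of fields of characteristic zero is reduced. -/
theorem red (F Θ K : Type) [Field F] [CharZero F] [Field Θ] [Field K] [Algebra F Θ] [Algebra F K]
    [Algebra.EssFiniteType F K] : IsReduced (K ⊗[F] Θ) := by
  obtain ⟨ι, y, hy⟩ := exists_isTranscendenceBasis' F K
  let L := IntermediateField.adjoin F (range y)
  have := hy.isAlgebraic_field
  have : Algebra.EssFiniteType L K := .of_comp F L K
  have : IsDomain (L ⊗[F] Θ) := by
    have := dom (F := F) (Θ := Θ) (ι := ι)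
    exact (Algebra.TensorProduct.congr hy.1.aevalEquivField.symm
      (AlgEquiv.refl (A₁ := Θ))).toMulEquiv.isDomain _
  exact red4 F L Θ K

/-- an element of all primes between `J` and `m` is locally nilpotent modulo `J` -/
theorem loc {R : Type} [CommRing R] {J m : Ideal R} [m.IsPrime] {σ : R}
    (hσ : ∀ q : Ideal R, q.IsPrime → J ≤ q → q ≤ m → σ ∈ q) :
    ∃ (N : ℕ) (g : R), g ∉ m ∧ g * σ ^ N ∈ J := by
  by_contra hc
  push Not at hc
  obtain ⟨q, h1, h2, h3⟩ := J.exists_le_prime_disjoint (m.primeCompl ⊔ Submonoid.powers σ)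
    (disjoint_left.2 fun x hx hx' => by
      obtain ⟨g, hg, _, ⟨N, rfl⟩, rfl⟩ := Submonoid.mem_sup.1 hx'
      exact hc N g hg hx)
  exact disjoint_left.1 h3 (hσ q h1 h2 fun x hx => by_contra fun n =>
    disjoint_left.1 h3 hx (Submonoid.mem_sup_left n)) (Submonoid.mem_sup_right (Submonoid.mem_powers σ))

section coord
variable {F Θ : Type} [Field F] [Field Θ] [Algebra ℂ F] [Algebra ℂ Θ]

/-- functionals which are linear along `j` -/
def Lin (j : F →ₐ[ℂ] Θ) (l : Θ →ₗ[ℂ] F) : Prop := ∀ x θ, l (j x * θ) = x * l θ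

theorem expand (j : F →ₐ[ℂ] Θ) (h : Θ ⊗[ℂ] F) : ∃ (ι : Type) (s : Finset ι) (θ : ι → Θ)
    (l : ι → Θ →ₗ[ℂ] F), (∀ i, Lin j (l i)) ∧
      h = ∑ i ∈ s, (θ i ⊗ₜ 1) * bc F j ((l i).rTensor F h) := by
  let _ : Algebra F Θ := j.toRingHom.toAlgebra
  have : IsScalarTower ℂ F Θ := .of_algebraMap_eq fun c => (j.commutes c).symm
  let b := Module.Basis.ofVectorSpace F Θ
  classical
  have key : ∃ s : Finset _, ∀ t, s ⊆ t → h = ∑ i ∈ t, (b i ⊗ₜ 1) *
      bc F j (((b.coord i).restrictScalars ℂ).rTensor F h) := by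
    induction h with
    | zero => exact ⟨∅, fun t _ => by simp⟩
    | tmul θ x =>
      refine ⟨(b.repr θ).support, fun t ht => ?_⟩
      simp only [LinearMap.rTensor_tmul, bc_tmul, Algebra.TensorProduct.tmul_mul_tmul, one_mul]
      rw [← TensorProduct.sum_tmul]
      congr 1
      conv_lhs => rw [← b.linearCombination_repr θ, Finsupp.linearCombination_apply,
        Finsupp.sum_of_support_subset _ ht (fun i a => a • b i) fun _ _ => zero_smul _ _]
      exact Finset.sum_congr rfl fun i _ => mul_comm _ _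
    | add u v hu hv =>
      obtain ⟨s, hs⟩ := hu
      obtain ⟨s', hs'⟩ := hv
      refine ⟨s ∪ s', fun t ht => ?_⟩
      simp only [map_add, mul_add, Finset.sum_add_distrib]
      rw [← hs t (Finset.union_subset_left ht), ← hs' t (Finset.union_subset_right ht)]
  obtain ⟨s, hs⟩ := key
  exact ⟨_, s, b, _, fun i x θ => (b.coord i).map_smul x θ, hs s le_rfl⟩

theorem Lin.sep {j : F →ₐ[ℂ] Θ} {θ : Θ} (h : ∀ l, Lin j l → l θ = 0) : θ = 0 := by
  let _ : Algebra F Θ := j.toRingHom.toAlgebra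
  have : IsScalarTower ℂ F Θ := .of_algebraMap_eq fun c => (j.commutes c).symm
  exact (Module.forall_dual_apply_eq_zero_iff F θ).1 fun l =>
    h (l.restrictScalars ℂ) fun x θ => l.map_smul x θ

theorem Lin.mul {j : F →ₐ[ℂ] Θ} {l : Θ →ₗ[ℂ] F} (hl : Lin j l) (f : F ⊗[ℂ] F) (h : Θ ⊗[ℂ] F) :
    l.rTensor F (h * bc F j f) = l.rTensor F h * f := by
  induction f with
  | zero => simp
  | add u v hu hv => simp only [map_add, mul_add, hu, hv]
  | tmul x y =>
    induction h with
    | zero => simp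
    | add u v hu hv => simp only [map_add, add_mul, hu, hv]
    | tmul θ z =>
      simp only [bc_tmul, Algebra.TensorProduct.tmul_mul_tmul, LinearMap.rTensor_tmul]
      rw [mul_comm θ, hl, mul_comm x]

theorem mem_map {j : F →ₐ[ℂ] Θ} {J : Ideal (F ⊗[ℂ] F)} {h : Θ ⊗[ℂ] F} :
    h ∈ J.map (bc F j) ↔ ∀ l, Lin j l → l.rTensor F h ∈ J := by
  refine ⟨fun hh => ?_, fun hh => ?_⟩
  · have : ∀ r l, Lin j l → l.rTensor F (r * h) ∈ J := by
      induction hh using Submodule.span_induction with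
      | mem x hx =>
        obtain ⟨f, hf, rfl⟩ := hx
        exact fun r l hl => hl.mul f r ▸ J.mul_mem_left _ hf
      | zero => simp
      | add u v _ _ hu hv =>
        intro r l hl
        rw [mul_add, map_add]
        exact add_mem (hu r l hl) (hv r l hl)
      | smul c u _ hu =>
        intro r l hl
        rw [smul_eq_mul, ← mul_assoc]
        exact hu _ l hl
    simpa using this 1
  · obtain ⟨ι, s, θ, l, h1, h2⟩ := expand j h
    rw [h2]
    exact sum_mem fun i _ => Ideal.mul_mem_left _ _ (Ideal.mem_map_of_mem _ (hh _ (h1 i)))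

theorem Lin.ev {j : F →ₐ[ℂ] Θ} {l : Θ →ₗ[ℂ] F} (hl : Lin j l) (h : Θ ⊗[ℂ] F) :
    ev F (AlgHom.id ℂ F) (l.rTensor F h) = l (ev Θ j h) := by
  induction h with
  | zero => simp
  | add u v hu hv => simp only [map_add, hu, hv]
  | tmul θ z =>
    rw [LinearMap.rTensor_tmul, ev_tmul, ev_tmul]
    exact (mul_comm _ _).trans ((hl z θ).symm.trans (congrArg l (mul_comm _ _)))

theorem cen_le (j : F →ₐ[ℂ] Θ) : cen Θ j ≤ (cen F (AlgHom.id ℂ F)).map (bc F j) := fun h hh =>
  mem_map.2 fun l hl => mem_cen.2 (by rw [hl.ev, mem_cen.1 hh, map_zero])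

theorem ev_bc (j : F →ₐ[ℂ] Θ) (f : F ⊗[ℂ] F) : ev Θ j (bc F j f) = j (ev F (AlgHom.id ℂ F) f) := by
  induction f with
  | zero => simp
  | add u v hu hv => simp only [map_add, hu, hv]
  | tmul x y => rw [bc_tmul, ev_tmul, ev_tmul]; exact (map_mul j x y).symm

theorem noeth [Algebra.EssFiniteType ℂ F] : IsNoetherianRing (F ⊗[ℂ] F) :=
  Algebra.EssFiniteType.isNoetherianRing F _

/-- elements outside the point are not zero divisors -/
theorem nzd [Algebra.EssFiniteType ℂ F] (j : F →ₐ[ℂ] Θ) {P : Ideal (F ⊗[ℂ] F)} [P.IsPrime]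
    (hP : P ≤ cen F (AlgHom.id ℂ F)) {u h : Θ ⊗[ℂ] F} (hu : u ∉ cen Θ j)
    (hh : u * h ∈ P.map (bc F j)) : h ∈ P.map (bc F j) := by
  have := noeth (F := F)
  set m := cen F (AlgHom.id ℂ F)
  have c0 : ev Θ j u ≠ 0 := hu
  have key : ∀ n, h ∈ (m ^ n ⊔ P).map (bc F j) := fun n => by
    induction n with
    | zero => simp [Ideal.map_top]
    | succ n ih =>
      have h1 : u - algebraMap Θ _ (ev Θ j u) ∈ m.map (bc F j) :=
        cen_le j (mem_cen.2 (by rw [map_sub, AlgHom.commutes]; exact sub_self _))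
      have h2 : (u - algebraMap Θ _ (ev Θ j u)) * h ∈ (m ^ (n + 1) ⊔ P).map (bc F j) := by
        have := Ideal.mul_mem_mul h1 ih
        rw [← Ideal.map_mul] at this
        refine Ideal.map_mono ?_ this
        rw [Ideal.mul_sup, ← pow_succ']
        exact sup_le_sup_left Ideal.mul_le_right _
      have h3 := Ideal.mul_mem_left _ (algebraMap Θ _ (ev Θ j u)⁻¹)
        (sub_mem (Ideal.map_mono le_sup_right hh) h2)
      rwa [← sub_mul, sub_sub_cancel, ← mul_assoc, ← map_mul, inv_mul_cancel₀ c0, map_one,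
        one_mul] at h3
  refine mem_map.2 fun l hl => Ideal.Quotient.eq_zero_iff_mem.1 ?_
  have hne : m.map (Ideal.Quotient.mk P) ≠ ⊤ := fun e => by
    have := Ideal.comap_map_of_surjective _ (Ideal.Quotient.mk_surjective (I := P)) m
    rw [e, Ideal.comap_top, ← RingHom.ker_eq_comap_bot, Ideal.mk_ker, sup_eq_left.2 hP] at this
    exact (cen_prime _).ne_top this.symm
  rw [← Ideal.mem_bot, ← Ideal.iInf_pow_eq_bot_of_isDomain _ hne, Ideal.mem_iInf]
  intro n
  have := Ideal.mem_map_of_mem (Ideal.Quotient.mk P) (mem_map.1 (key n) l hl)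
  rwa [Ideal.map_sup, Ideal.map_quotient_self, sup_bot_eq, Ideal.map_pow] at this

/-- the extension of a prime is radical -/
theorem rad [Algebra.EssFiniteType ℂ F] (j : F →ₐ[ℂ] Θ) {P : Ideal (F ⊗[ℂ] F)} [P.IsPrime]
    {h : Θ ⊗[ℂ] F} {N : ℕ} (hh : h ^ N ∈ P.map (bc F j)) : h ∈ P.map (bc F j) := by
  let _ : Algebra F Θ := j.toRingHom.toAlgebra
  have : IsScalarTower ℂ F Θ := .of_algebraMap_eq fun c => (j.commutes c).symm
  have : CharZero F := charZero_of_injective_algebraMap (algebraMap ℂ F).injective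
  let K := FractionRing ((F ⊗[ℂ] F) ⧸ P)
  have : Algebra.EssFiniteType F K :=
    have := Algebra.EssFiniteType.of_isLocalization K (nonZeroDivisors ((F ⊗[ℂ] F) ⧸ P))
    Algebra.EssFiniteType.comp F ((F ⊗[ℂ] F) ⧸ P) _
  have := red F Θ K
  let ψ : F ⊗[ℂ] F →ₐ[F] K := (IsScalarTower.toAlgHom F _ K).comp (Ideal.Quotient.mkₐ F P)
  have hψ : ∀ r, ψ r = 0 ↔ r ∈ P := fun r =>
    (FaithfulSMul.algebraMap_eq_zero_iff ((F ⊗[ℂ] F) ⧸ P) K).trans Ideal.Quotient.eq_zero_iff_mem
  let Ψ : Θ ⊗[ℂ] F →ₐ[ℂ] K ⊗[F] Θ := Algebra.TensorProduct.lift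
    (Algebra.TensorProduct.includeRight.restrictScalars ℂ)
    ((Algebra.TensorProduct.includeLeft.comp (ψ.restrictScalars ℂ)).comp
      Algebra.TensorProduct.includeRight) fun _ _ => .all _ _
  have e1 : ∀ θ x, Ψ (θ ⊗ₜ x) = ψ (1 ⊗ₜ x) ⊗ₜ θ := fun θ x => by simp [Ψ]
  have e2 : ∀ x y, ψ (x ⊗ₜ y) = x • ψ (1 ⊗ₜ y) := fun x y => by
    rw [← map_smul, TensorProduct.smul_tmul', smul_eq_mul, mul_one]
  have h1 : P.map (bc F j) ≤ RingHom.ker Ψ := Ideal.map_le_iff_le_comap.2 fun f hf => by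
    have : ∀ f, Ψ (bc F j f) = ψ f ⊗ₜ 1 := fun f => by
      induction f with
      | zero => simp
      | add u v hu hv => simp only [map_add, hu, hv, TensorProduct.add_tmul]
      | tmul x y =>
        rw [bc_tmul, e1, e2 x, TensorProduct.smul_tmul, Algebra.smul_def, mul_one]
        rfl
    change Ψ (bc F j f) = 0
    rw [this, (hψ f).2 hf, TensorProduct.zero_tmul]
  have h2 : Ψ h = 0 := IsReduced.eq_zero _ ⟨N, (map_pow Ψ h N).symm.trans (h1 hh)⟩
  refine mem_map.2 fun l hl => (hψ _).1 ?_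
  let l' : Θ →ₗ[F] F := ⟨l.toAddHom, fun x θ => hl x θ⟩
  have : ∀ h, ψ (l.rTensor F h) = TensorProduct.rid F K (l'.lTensor K (Ψ h)) := fun h => by
    induction h with
    | zero => simp
    | add u v hu hv => simp only [map_add, hu, hv]
    | tmul θ x =>
      rw [LinearMap.rTensor_tmul, e1, e2, LinearMap.lTensor_tmul, TensorProduct.rid_tmul]
      rfl
  rw [this, h2, map_zero, map_zero]

end coord

end Pool.Agent.Lib.KBE.R26
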