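import Pool.Agent.Lib.KBE.R26a
import Pool.Agent.Lib.A35.Tay

/-! The row R2 from the row REG. -/

open scoped TensorProduct
open Set

noncomputable section

namespace Pool.Agent.Lib.KBE.R26

open A35.G

variable {F Θ : Type} [Field F] [Field Θ] [Algebra ℂ F] [Algebra ℂ Θ]

variable (F) in
abbrev mm : Ideal (F ⊗[ℂ] F) := cen F (AlgHom.id ℂ F)

theorem tn_r {L L' : Type} [Field L] [Field L'] [Algebra ℂ L] [Algebra ℂ L'] (φ : L →ₗ[ℂ] L')
    {W : Submodule ℂ F} {f : L ⊗[ℂ] F} (h : f ∈ tn L W) : φ.rTensor F f ∈ tn L' W := by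
  obtain ⟨g, rfl⟩ := h
  exact ⟨φ.rTensor W g, by
    rw [← LinearMap.comp_apply, ← LinearMap.comp_apply, LinearMap.rTensor_comp_lTensor,
      LinearMap.lTensor_comp_rTensor]⟩

theorem tn_mono {W W' : Submodule ℂ F} (h : W ≤ W') {f : F ⊗[ℂ] F} (hf : f ∈ tn F W) :
    f ∈ tn F W' := by
  obtain ⟨g, rfl⟩ := hf
  exact ⟨(Submodule.inclusion h).lTensor F g, by
    rw [← LinearMap.comp_apply, ← LinearMap.lTensor_comp]; rfl⟩

theorem bc_eq (j : F →ₐ[ℂ] Θ) (f : F ⊗[ℂ] F) : bc F j f = j.toLinearMap.rTensor F f := by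
  induction f with
  | zero => simp
  | add u v hu hv => simp only [map_add, hu, hv]
  | tmul x y => rfl

theorem comm (hREG : St_REG) (a b : F →ₐ[ℂ] Θ) {W : Submodule ℂ F} {s : ℕ}
    (h0 : ∀ f ∈ tn F W, f ∈ mm F ^ s → bc F a f ∈ cen Θ b) (N : ℕ) :
    ∀ f ∈ tn F W, f ∈ mm F ^ (s + N) → bc F a f ∈ cen Θ b ^ (N + 1) := by
  induction N with
  | zero => exact fun f hf h => by simpa using h0 f hf h
  | succ N ih =>
    refine fun f hf h => hREG F Θ b (N + 1) _ N.succ_pos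
      (ih f hf (Ideal.pow_le_pow_right (by omega) h)) fun D => ?_
    obtain ⟨ι, t, θ, l, h1, h2⟩ := expand a (derL F D (bc F a f))
    rw [h2]
    refine sum_mem fun i _ => Ideal.mul_mem_left _ _ ?_
    let d : Derivation ℂ F F := Derivation.mk' ((l i).comp (D.toLinearMap.comp a.toLinearMap))
      fun x y => by
        change l i (D (a (x * y))) = x * l i (D (a y)) + y * l i (D (a x))
        rw [map_mul, D.leibniz, map_add, smul_eq_mul, smul_eq_mul, h1 i, h1 i]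
    have e : (l i).rTensor F (derL F D (bc F a f)) = derL F d f := by
      clear h2 h hf
      induction f with
      | zero => simp
      | add u v hu hv => simp only [map_add, hu, hv]
      | tmul x y => rfl
    rw [e]
    exact ih _ (tn_r d.toLinearMap hf) (A35.T.der_pow _ _ _ f h)

/-- primes below the diagonal which contain all elements of high order -/
structure Gd (G : ℕ → ℕ → Submodule ℂ F) (l : ℕ) (P : Ideal (F ⊗[ℂ] F)) : Prop where
  pr : P.IsPrime
  le : P ≤ mm F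
  sub : ∃ s, ∀ x, ∀ f ∈ tn F (G x l), f ∈ mm F ^ s → f ∈ P

section right
variable (K : IntermediateField ℂ F)

theorem expR (f : F ⊗[ℂ] F) : ∃ (ι : Type) (s : Finset ι) (e : ι → F) (π : ι → F →ₗ[K] K),
    LinearIndependent K e ∧ f = ∑ i ∈ s, inc F K (con F (π i) f) * (1 ⊗ₜ e i) := by
  let b := Module.Basis.ofVectorSpace K F
  classical
  have key : ∃ s : Finset _, ∀ t, s ⊆ t →
      f = ∑ i ∈ t, inc F K (con F (b.coord i) f) * (1 ⊗ₜ b i) := by
    induction f with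
    | zero => exact ⟨∅, fun t _ => by simp⟩
    | tmul x y =>
      refine ⟨(b.repr y).support, fun t ht => ?_⟩
      have : ∀ i, inc F K (con F (b.coord i) (x ⊗ₜ y)) * (1 ⊗ₜ b i) = x ⊗ₜ (b.repr y i • b i) :=
        fun i => (Algebra.TensorProduct.tmul_mul_tmul _ _ _ _).trans (congrArg (· ⊗ₜ _) (mul_one x))
      simp only [this]
      rw [← TensorProduct.tmul_sum]
      congr 1
      conv_lhs => rw [← b.linearCombination_repr y, Finsupp.linearCombination_apply,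
        Finsupp.sum_of_support_subset _ ht (fun i a => a • b i) fun _ _ => zero_smul _ _]
    | add u v hu hv =>
      obtain ⟨s, hs⟩ := hu
      obtain ⟨s', hs'⟩ := hv
      refine ⟨s ∪ s', fun t ht => ?_⟩
      simp only [map_add, add_mul, Finset.sum_add_distrib]
      rw [← hs t (Finset.union_subset_left ht), ← hs' t (Finset.union_subset_right ht)]
  obtain ⟨s, hs⟩ := key
  exact ⟨_, s, b, _, b.linearIndependent, hs s le_rfl⟩

variable {K}

theorem con_mul (π : F →ₗ[K] K) (y : F ⊗[ℂ] K) (e : F) :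
    con F π (inc F K y * (1 ⊗ₜ e)) = y * (1 ⊗ₜ π e) := by
  induction y with
  | zero => simp
  | add u v hu hv => simp only [map_add, add_mul, hu, hv]
  | tmul x c =>
    change con F π ((x ⊗ₜ (c : F)) * (1 ⊗ₜ e)) = _
    rw [Algebra.TensorProduct.tmul_mul_tmul, Algebra.TensorProduct.tmul_mul_tmul]
    exact congrArg (_ ⊗ₜ ·) (π.map_smul c e)

theorem inc_sub {J : Ideal (F ⊗[ℂ] F)} (hJ : ∀ c ∈ K, c ⊗ₜ 1 - 1 ⊗ₜ c ∈ J) (y : F ⊗[ℂ] K) :
    inc F K y - ev F K.val y ⊗ₜ 1 ∈ J := by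
  induction y with
  | zero => simp
  | add u v hu hv =>
    rw [map_add, map_add, TensorProduct.add_tmul, add_sub_add_comm]
    exact add_mem hu hv
  | tmul x c =>
    have := J.neg_mem (J.mul_mem_left (x ⊗ₜ 1) (hJ c c.2))
    rw [mul_sub, neg_sub, Algebra.TensorProduct.tmul_mul_tmul, Algebra.TensorProduct.tmul_mul_tmul,
      mul_one, one_mul, mul_one] at this
    exact this

theorem inc_mem {J : Ideal (F ⊗[ℂ] F)} (hJ : ∀ c ∈ K, c ⊗ₜ 1 - 1 ⊗ₜ c ∈ J) {y : F ⊗[ℂ] K}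
    (hy : y ∈ dg K) : inc F K y ∈ J := by
  have := inc_sub hJ y
  rwa [mem_cen.1 hy, TensorProduct.zero_tmul, sub_zero] at this

theorem ev_inc (y : F ⊗[ℂ] K) : ev F (AlgHom.id ℂ F) (inc F K y) = ev F K.val y := by
  induction y with
  | zero => simp
  | add u v hu hv => simp only [map_add, hu, hv]
  | tmul x c => rfl

theorem mem_of_con {J : Ideal (F ⊗[ℂ] F)} {f : F ⊗[ℂ] F}
    (h : ∀ π : F →ₗ[K] K, inc F K (con F π f) ∈ J) : f ∈ J := by
  obtain ⟨ι, s, e, π, -, h2⟩ := expR K f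
  rw [h2]
  exact sum_mem fun i _ => J.mul_mem_right _ (h _)

/-- linear disjointness modulo `P` -/
def LD (K : IntermediateField ℂ F) (P : Ideal (F ⊗[ℂ] F)) : Prop :=
  ∀ (ι : Type) (e : ι → F), LinearIndependent K e → ∀ (s : Finset ι) (β : ι → F),
    ∑ i ∈ s, β i ⊗ₜ e i ∈ P → ∀ i ∈ s, β i = 0

theorem LD.con {P : Ideal (F ⊗[ℂ] F)} (h : LD K P) (hJ : ∀ c ∈ K, c ⊗ₜ 1 - 1 ⊗ₜ c ∈ P)
    {f : F ⊗[ℂ] F} (hf : f ∈ P) (π' : F →ₗ[K] K) : con F π' f ∈ dg K := by
  obtain ⟨ι, s, e, π, h1, h2⟩ := expR K f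
  have h3 := h ι e h1 s (fun i => ev F K.val (KBE.con F (π i) f)) (by
    have := sub_mem hf (sum_mem (t := s) fun i _ =>
      P.mul_mem_right (1 ⊗ₜ e i) (inc_sub hJ (KBE.con F (π i) f)))
    simp only [sub_mul, Finset.sum_sub_distrib, ← h2, sub_sub_cancel,
      Algebra.TensorProduct.tmul_mul_tmul, mul_one, one_mul] at this
    exact this)
  rw [h2, map_sum]
  exact sum_mem fun i hi => by
    rw [con_mul]
    exact mem_cen.2 ((map_mul (ev F K.val) _ _).trans (mul_eq_zero_of_left (h3 i hi) _))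

theorem ord (hREG : St_REG) {W : Submodule ℂ F} {s : ℕ}
    (h0 : ∀ f ∈ tn F W, f ∈ mm F ^ s → ∀ π : F →ₗ[K] K, con F π f ∈ dg K) (N : ℕ) :
    ∀ f ∈ tn F W, f ∈ mm F ^ (s + N) → ∀ π : F →ₗ[K] K, con F π f ∈ dg K ^ (N + 1) := by
  induction N with
  | zero => exact fun f hf h π => (Submodule.pow_one (dg K)).ge (h0 f hf h π)
  | succ N ih =>
    refine fun f hf h π => hREG K F K.val (N + 1) _ N.succ_pos
      (ih f hf (Ideal.pow_le_pow_right (by omega) h) π) fun D => ?_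
    have e : derL K D (con F π f) = con F π (derL F D f) := by
      clear h hf
      induction f with
      | zero => simp
      | add u v hu hv => simp only [map_add, hu, hv]
      | tmul x y => rfl
    rw [e]
    exact ih _ (tn_r D.toLinearMap hf) (A35.T.der_pow (derL F D) _ _ f h) π

end right

section core
variable [Algebra.EssFiniteType ℂ F] {G : ℕ → ℕ → Submodule ℂ F} {l : ℕ} {P : Ideal (F ⊗[ℂ] F)}
  {a b : F →ₐ[ℂ] Θ}

theorem key (hREG : St_REG) (hP : Minimal (Gd G l) P)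
    (hab : ∀ f, ev Θ b (bc F a f) = 0 ↔ f ∈ P) {P' : Ideal (F ⊗[ℂ] F)} (hP' : Gd G l P')
    {f : F ⊗[ℂ] F} (hf : f ∈ P) : bc F a f ∈ P'.map (bc F b) := by
  have := hP'.pr
  obtain ⟨s, hs⟩ := hP.1.sub
  obtain ⟨s', hs'⟩ := hP'.sub
  obtain ⟨N, u, hu, h⟩ := loc (J := P'.map (bc F b)) (m := cen Θ b) (σ := bc F a f)
    fun q hq h1 h2 => by
      have le : q.comap (bc F a) ≤ P := fun g hg => (hab g).1 (h2 hg)
      refine hP.2 ⟨Ideal.comap_isPrime _ _, le.trans hP.1.le, s + s', fun x g hg hm =>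
        h1 (mem_map.2 fun l hl => hs' x _ (tn_r l (bc_eq a g ▸ tn_r _ hg)) ?_)⟩ le hf
      have := Ideal.pow_right_mono (cen_le b) _ (Ideal.pow_le_pow_right s'.le_succ
        (comm hREG a b (fun g hg hm => (hab g).2 (hs x g hg hm)) s' g hg hm))
      rw [← Ideal.map_pow] at this
      exact mem_map.1 this l hl
  exact rad b (nzd b hP'.le hu h)

/-- the common part of two embeddings -/
def eqz (a b : F →ₐ[ℂ] Θ) : IntermediateField ℂ F :=
  (AlgHom.equalizer a b).toIntermediateField fun x hx => by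
    change a _ = b _
    rw [map_inv₀, map_inv₀, show a x = b x from hx]

omit [Algebra.EssFiniteType ℂ F] in
theorem mem_eqz (hab : ∀ f, ev Θ b (bc F a f) = 0 ↔ f ∈ P) {c : F} :
    c ∈ eqz a b ↔ c ⊗ₜ 1 - 1 ⊗ₜ c ∈ P := by
  rw [← hab, map_sub, map_sub, bc_tmul, bc_tmul, ev_tmul, ev_tmul, map_one, map_one, map_one,
    mul_one, one_mul, sub_eq_zero]
  rfl

theorem ld (hREG : St_REG) (hP : Minimal (Gd G l) P)
    (hab : ∀ f, ev Θ b (bc F a f) = 0 ↔ f ∈ P) : LD (eqz a b) P := by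
  classical
  intro ι e he s
  induction s using Finset.strongInduction with
  | H s ih =>
  intro β hβ i0 h0
  by_contra n
  have h1 : ∑ i ∈ s, (β i / β i0) ⊗ₜ e i ∈ P := by
    have := P.mul_mem_left ((β i0)⁻¹ ⊗ₜ 1) hβ
    simp only [Finset.mul_sum, Algebra.TensorProduct.tmul_mul_tmul, one_mul,
      ← div_eq_inv_mul] at this
    exact this
  have h2 : ∀ i ∈ s, β i / β i0 ∈ eqz a b := fun i hi => by
    by_cases c : i = i0
    · rw [c, div_self n]
      exact one_mem _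
    refine sub_eq_zero.1 (Lin.sep (j := b) fun l hl => ?_)
    have h3 := sub_mem (mem_map.1 (key hREG hP hab hP.1 h1) l hl) (P.mul_mem_left (l 1 ⊗ₜ 1) h1)
    simp only [map_sum, bc_tmul, LinearMap.rTensor_tmul, Finset.mul_sum,
      Algebra.TensorProduct.tmul_mul_tmul, one_mul, ← Finset.sum_sub_distrib,
      ← TensorProduct.sub_tmul] at h3
    rw [← Finset.add_sum_erase _ _ h0, div_self n, map_one, mul_one, sub_self,
      TensorProduct.zero_tmul, zero_add] at h3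
    have h4 := ih _ (Finset.erase_ssubset h0) _ h3 i (Finset.mem_erase.2 ⟨c, hi⟩)
    rw [map_sub, ← mul_one (b _), hl, mul_comm]
    exact h4
  have h5 := mem_cen.1 (hP.1.le h1)
  have h6 := linearIndependent_iff'.1 he s
    (fun i => if c : i ∈ s then ⟨β i / β i0, h2 i c⟩ else 0) (by
      rw [← h5, map_sum]
      exact Finset.sum_congr rfl fun i hi => by rw [dif_pos hi]; rfl) i0 h0
  rw [dif_pos h0] at h6
  exact div_ne_zero n n (congrArg Subtype.val h6)

theorem least (hREG : St_REG) (hP : Minimal (Gd G l) P)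
    (hab : ∀ f, ev Θ b (bc F a f) = 0 ↔ f ∈ P) {P' : Ideal (F ⊗[ℂ] F)} (hP' : Gd G l P') :
    P ≤ P' := fun f hf => by
  refine mem_of_con (K := eqz a b) fun π => inc_mem (fun c hc => ?_)
    ((ld hREG hP hab).con (fun c => (mem_eqz hab).1) hf π)
  have h1 := key hREG hP hab hP' ((mem_eqz hab).1 hc)
  have h2 : bc F a (c ⊗ₜ 1 - 1 ⊗ₜ c) = bc F b (c ⊗ₜ 1 - 1 ⊗ₜ c) := by
    rw [map_sub, map_sub, bc_tmul, bc_tmul, bc_tmul, bc_tmul, map_one, map_one,
      show a c = b c from hc]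
  obtain ⟨t, ht⟩ : ∃ t, Lin b t ∧ t 1 ≠ 0 := by
    by_contra n
    push Not at n
    exact one_ne_zero (Lin.sep n)
  have h3 := mem_map.1 h1 t ht.1
  rw [h2, ← one_mul (bc F b _), ht.1.mul, Algebra.TensorProduct.one_def, LinearMap.rTensor_tmul] at h3
  refine (hP'.pr.mem_or_mem h3).resolve_left fun h4 => ht.2 ?_
  simpa [ev_tmul] using mem_cen.1 (hP'.le h4)

omit [Algebra.EssFiniteType ℂ F] in
theorem clo (hab : ∀ f, ev Θ b (bc F a f) = 0 ↔ f ∈ P) (h : LD (eqz a b) P) :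
    Clo (eqz a b) := fun c hc => by
  have hi := hc.isIntegral
  have e : a.toRingHom.comp (algebraMap (eqz a b) F) = b.toRingHom.comp (algebraMap (eqz a b) F) :=
    RingHom.ext fun x => x.2
  have h1 := congrArg (Polynomial.eval₂ a.toRingHom (b c)) (minpolyDiv_spec (eqz a b) c)
  rw [Polynomial.eval₂_mul, Polynomial.eval₂_map, e, Polynomial.eval₂_sub, Polynomial.eval₂_X,
    Polynomial.eval₂_C] at h1
  have h2 := (Polynomial.hom_eval₂ (minpoly (eqz a b) c) (algebraMap (eqz a b) F) b.toRingHom c).symm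
  rw [← Polynomial.aeval_def, minpoly.aeval, map_zero] at h2
  refine (sub_eq_zero.1 ((mul_eq_zero.1 (h1.trans h2)).resolve_left fun h3 => ?_)).symm
  have d := natDegree_minpolyDiv_lt (R := eqz a b) hi
  rw [Polynomial.eval₂_eq_sum_range' _ d, Finset.sum_range] at h3
  have h4 := h _ _ (linearIndependent_pow (K := eqz a b) c) Finset.univ
    (fun i => (minpolyDiv (eqz a b) c).coeff i) ((hab _).1 (by
      rw [← h3, map_sum, map_sum]
      exact Finset.sum_congr rfl fun i _ => by rw [bc_tmul, ev_tmul, map_pow]; rfl))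
    ⟨_, d⟩ (Finset.mem_univ _)
  exact one_ne_zero ((minpolyDiv_monic hi).coeff_natDegree.symm.trans h4)

end core

theorem pt (P : Ideal (F ⊗[ℂ] F)) [P.IsPrime] : ∃ (Θ : Type) (_ : Field Θ) (_ : Algebra ℂ Θ)
    (a b : F →ₐ[ℂ] Θ), ∀ f, ev Θ b (bc F a f) = 0 ↔ f ∈ P := by
  let Θ := FractionRing ((F ⊗[ℂ] F) ⧸ P)
  let ψ : F ⊗[ℂ] F →ₐ[ℂ] Θ := (IsScalarTower.toAlgHom ℂ _ Θ).comp (Ideal.Quotient.mkₐ ℂ P)
  refine ⟨Θ, inferInstance, inferInstance, ψ.comp Algebra.TensorProduct.includeLeft,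
    ψ.comp Algebra.TensorProduct.includeRight, fun f => ?_⟩
  have : ev Θ (ψ.comp Algebra.TensorProduct.includeRight)
      (bc F (ψ.comp Algebra.TensorProduct.includeLeft) f) = ψ f := by
    induction f with
    | zero => simp
    | add u v hu hv => simp only [map_add, hu, hv]
    | tmul x y =>
      rw [bc_tmul, ev_tmul]
      exact (map_mul ψ _ _).symm.trans (by simp)
  rw [this]
  exact (FaithfulSMul.algebraMap_eq_zero_iff ((F ⊗[ℂ] F) ⧸ P) Θ).trans Ideal.Quotient.eq_zero_iff_mem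

section top
variable [Algebra.EssFiniteType ℂ F] {G : ℕ → ℕ → Submodule ℂ F}

theorem exists_min (G : ℕ → ℕ → Submodule ℂ F) (l : ℕ) : ∃ P, Minimal (Gd G l) P := by
  have := noeth (F := F)
  obtain ⟨P, hP, h⟩ := (InvImage.wf (fun P : Ideal (F ⊗[ℂ] F) => P.height) wellFounded_lt).has_min
    {P | Gd G l P} ⟨mm F, cen_prime _, le_rfl, 1, fun _ _ _ h => by simpa using h⟩
  refine ⟨P, hP, fun Q hQ le => by_contra fun n => h Q hQ ?_⟩
  have := hP.pr
  have := hQ.pr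
  exact Ideal.height_strict_mono_of_isPrime_of_isPrime (lt_of_le_not_ge le n)

theorem rank (s : ℕ) : ∃ r, ∀ n (e : Fin n → F), r < n →
    ∃ β : Fin n → F, β ≠ 0 ∧ ∑ i, β i ⊗ₜ e i ∈ mm F ^ s := by
  have := noeth (F := F)
  wlog hs : 0 < s generalizing s
  · obtain ⟨r, hr⟩ := this 1 one_pos
    refine ⟨r, fun n e hn => ?_⟩
    obtain ⟨β, b0, h⟩ := hr n e hn
    exact ⟨β, b0, Ideal.pow_le_pow_right (by omega) h⟩
  have : Module.Finite F ((F ⊗[ℂ] F) ⧸ mm F ^ s) :=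
    Module.finite_of_surjective_of_ker_le_nilradical
      (Ideal.Quotient.liftₐ (mm F ^ s) (ev F (AlgHom.id ℂ F)) fun x hx =>
        Ideal.pow_le_self hs.ne' hx)
      (fun x => ⟨algebraMap F _ x, AlgHom.commutes _ x⟩) (fun x hx => by
        obtain ⟨x, rfl⟩ := Ideal.Quotient.mk_surjective x
        exact ⟨s, (map_pow _ x s).symm.trans
          (Ideal.Quotient.eq_zero_iff_mem.2 (Ideal.pow_mem_pow (I := mm F) hx s))⟩)
      (IsNoetherian.noetherian _)
  refine ⟨Module.finrank F ((F ⊗[ℂ] F) ⧸ mm F ^ s), fun n e hn => ?_⟩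
  have : ¬ LinearIndependent F fun i => Ideal.Quotient.mkₐ F (mm F ^ s) (1 ⊗ₜ e i) := fun h =>
    absurd (by simpa using h.fintype_card_le_finrank) hn.not_ge
  obtain ⟨β, h2, i, hi⟩ := Fintype.not_linearIndependent_iff.1 this
  refine ⟨β, fun z => hi (congrFun z i), Ideal.Quotient.eq_zero_iff_mem.1 ?_⟩
  simp only [← map_smul, ← map_sum, TensorProduct.smul_tmul', smul_eq_mul, mul_one] at h2
  exact h2

end top

theorem down {E : Type} [Field E] [Algebra ℂ E] (j : E →ₐ[ℂ] F) {p q : Ideal (F ⊗[ℂ] E)}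
    (hp : p.IsPrime) (hq : q.IsPrime) {P : Ideal (F ⊗[ℂ] F)} (hP : P.IsPrime)
    (h : ∀ y, Algebra.TensorProduct.map (AlgHom.id ℂ F) j y ∈ P ↔ y ∈ q) (le : p ≤ q) :
    ∃ Q ≤ P, Q.IsPrime ∧ ∀ y, Algebra.TensorProduct.map (AlgHom.id ℂ F) j y ∈ Q ↔ y ∈ p := by
  let _ := (Algebra.TensorProduct.map (AlgHom.id ℂ F) j).toRingHom.toAlgebra
  have : Module.Flat (F ⊗[ℂ] E) (F ⊗[ℂ] F) :=
    RingHom.Flat.tensorProductMap (f := AlgHom.id ℂ F) (g := j) (.id F) (by
      let _ := j.toRingHom.toAlgebra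
      exact inferInstanceAs (Module.Flat E F))
  have : P.LiesOver q := ⟨Ideal.ext fun y => (h y).symm⟩
  obtain ⟨Q, q1, q2, q3⟩ := Ideal.exists_ideal_le_liesOver_of_le (p := p) P le
  exact ⟨Q, q1, q2, fun y => (Ideal.ext_iff.1 q3.over y).symm⟩

theorem r2 (hREG : St_REG) : St_R2 := by
  intro F _ _ _ G hG
  have := noeth (F := F)
  choose P hP using exists_min G
  have dn : ∀ {l l' Q}, l ≤ l' → Gd G l' Q → Gd G l Q := fun h hQ =>
    let ⟨s, hs⟩ := hQ.sub
    ⟨hQ.pr, hQ.le, s, fun x f hf => hs x f (tn_mono (hG x _ _ h) hf)⟩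
  have mono : Monotone P := fun l l' h => by
    have := (hP l).1.pr
    obtain ⟨Θ, _, _, a, b, hab⟩ := pt (P l)
    exact least hREG (hP l) hab (dn h (hP l').1)
  obtain ⟨l, hl⟩ := monotone_stabilizes_iff_noetherian.2 this ⟨P, mono⟩
  have := (hP l).1.pr
  obtain ⟨Θ, _, _, a, b, hab⟩ := pt (P l)
  have hld := ld hREG (hP l) hab
  have hJ : ∀ c ∈ eqz a b, c ⊗ₜ 1 - 1 ⊗ₜ c ∈ P l := fun c => (mem_eqz hab).1
  refine ⟨eqz a b, clo hab hld, fun c => ?_, l, fun n σ hσ => ?_⟩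
  · obtain ⟨s, hs⟩ := (dn (le_max_right l c) (hP (max l c)).1).sub
    obtain ⟨r, hr⟩ := rank (F := F) s
    refine ⟨r, fun x n e he hi => not_lt.1 fun h => ?_⟩
    obtain ⟨β, b0, hβ⟩ := hr n e h
    have h1 := hs x _ (sum_mem fun i _ => ⟨β i ⊗ₜ ⟨e i, he i⟩, rfl⟩) hβ
    exact b0 (funext fun i => hld _ e hi _ β ((hl _ (le_max_left l c)).ge h1) i (Finset.mem_univ i))
  · obtain ⟨s, hs⟩ := (hP l).1.sub
    have : (dg (eqz a b)).IsPrime := cen_prime _
    refine loc (R := F ⊗[ℂ] eqz a b) (m := dg (eqz a b)) fun q hq h1 h2 => ?_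
    obtain ⟨Q, q1, q2, q3⟩ := down (eqz a b).val hq (cen_prime (κ := F) (eqz a b).val) (hP l).1.pr
      (fun y => ⟨fun hy => (ev_inc y).symm.trans ((hP l).1.le hy), fun hy => inc_mem hJ hy⟩) h2
    have h3 : Gd G l Q := ⟨q2, q1.trans (hP l).1.le, s + n, fun x f hf hm =>
      mem_of_con (K := eqz a b) fun π => (q3 _).2 (h1 (Ideal.subset_span ⟨x, f, π, hf, fun π' =>
        Ideal.pow_le_pow_right n.le_succ (ord hREG (fun g hg hm => hld.con hJ (hs x g hg hm))
          n f hf hm π'), rfl⟩))⟩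
    exact (q3 _).1 ((hP l).2 h3 q1 (inc_mem hJ hσ))

end Pool.Agent.Lib.KBE.R26
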