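import Pool.Agent.Lib.KBE.B_REG
import Pool.Agent.Lib.MP_07b136_ag.SchAlg

/-! Base change of the left factor: coordinates, ideals, orders of vanishing. -/

open scoped TensorProduct
open Set

noncomputable section

namespace Pool.Agent.Lib.KBE.R2
open A35.G

variable {F K K' : Type} [Field F] [Field K] [Field K'] [Algebra ℂ F] [Algebra ℂ K] [Algebra ℂ K']

variable (F) in
/-- Base change along `φ`. -/
def bcg (φ : K →ₐ[ℂ] K') : K ⊗[ℂ] F →ₐ[ℂ] K' ⊗[ℂ] F :=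
  Algebra.TensorProduct.map φ (AlgHom.id ℂ F)

theorem bcg_tmul (φ : K →ₐ[ℂ] K') (c : K) (e : F) : bcg F φ (c ⊗ₜ e) = φ c ⊗ₜ e := rfl

/-- A coordinate of `K'` over `K`. -/
def Co (φ : K →ₐ[ℂ] K') (π : K' →ₗ[ℂ] K) : Prop := ∀ c u, π (φ c * u) = c * π u

variable {φ : K →ₐ[ℂ] K'} {π : K' →ₗ[ℂ] K}

theorem Co.mul (h : Co φ π) (y : K ⊗[ℂ] F) (x : K' ⊗[ℂ] F) :
    π.rTensor F (bcg F φ y * x) = y * π.rTensor F x := by
  induction y with
  | zero => simp
  | add y z k1 k2 => simp only [map_add, add_mul, k1, k2]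
  | tmul c e =>
    induction x with
    | zero => simp
    | add y z k1 k2 => simp only [map_add, mul_add, k1, k2]
    | tmul u e' => simp [bcg_tmul, h c u]

theorem Co.map (h : Co φ π) {I : Ideal (K ⊗[ℂ] F)} {x : K' ⊗[ℂ] F} (hx : x ∈ I.map (bcg F φ)) :
    π.rTensor F x ∈ I := by
  suffices H : ∀ r, π.rTensor F (x * r) ∈ I by simpa using H 1
  induction hx using Submodule.span_induction with
  | mem x hx =>
    obtain ⟨y, hy, rfl⟩ := hx
    intro r
    rw [h.mul]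
    exact I.mul_mem_right _ hy
  | zero => simp
  | add y z _ _ k1 k2 =>
    intro r
    rw [add_mul, map_add]
    exact add_mem (k1 r) (k2 r)
  | smul a y _ k =>
    intro r
    rw [smul_eq_mul, mul_comm a, mul_assoc]
    exact k _

variable (φ) in
theorem exists_co : ∃ (ι : Type) (w : ι → K') (p : ι → K' →ₗ[ℂ] K), (∀ j, Co φ (p j)) ∧
    ∀ u, ∃ S : Finset ι, ∀ S', S ⊆ S' → u = ∑ j ∈ S', w j * φ (p j u) := by
  let _ : Algebra K K' := φ.toRingHom.toAlgebra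
  have : IsScalarTower ℂ K K' := .of_algebraMap_eq fun c => (φ.commutes c).symm
  let B := Module.Basis.ofVectorSpace K K'
  refine ⟨_, B, fun j => (B.coord j).restrictScalars ℂ, fun j c u => ?_, fun u =>
    ⟨(B.repr u).support, fun S' hS => ?_⟩⟩
  · exact map_smul (B.coord j) c u
  · conv_lhs => rw [← B.linearCombination_repr u, Finsupp.linearCombination_apply,
      Finsupp.sum_of_support_subset _ hS (fun i a => a • B i) fun i _ => zero_smul K _]
    exact Finset.sum_congr rfl fun j _ => mul_comm _ _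

theorem eq_zero_of_co {u : K'} (h : ∀ π, Co φ π → π u = 0) : u = 0 := by
  obtain ⟨ι, w, p, h1, h2⟩ := exists_co φ
  obtain ⟨S, hS⟩ := h2 u
  rw [hS S le_rfl]
  exact Finset.sum_eq_zero fun j _ => by rw [h _ (h1 j), map_zero, mul_zero]

theorem mem_of_bcg {I : Ideal (K ⊗[ℂ] F)} {y : K ⊗[ℂ] F} (h : bcg F φ y ∈ I.map (bcg F φ)) :
    y ∈ I := by
  obtain ⟨π, h1, h2⟩ : ∃ π, Co φ π ∧ π 1 ≠ 0 := by
    by_contra hc
    push Not at hc
    exact one_ne_zero (eq_zero_of_co hc)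
  have h3 := h1.map h
  rw [← mul_one (bcg F φ y), h1.mul, Algebra.TensorProduct.one_def, LinearMap.rTensor_tmul] at h3
  have h4 := I.mul_mem_right ((π 1)⁻¹ ⊗ₜ[ℂ] (1 : F)) h3
  rwa [mul_assoc, Algebra.TensorProduct.tmul_mul_tmul, mul_inv_cancel₀ h2, mul_one,
    ← Algebra.TensorProduct.one_def, mul_one] at h4

theorem mem_of_co {I : Ideal (K' ⊗[ℂ] F)} {x : K' ⊗[ℂ] F}
    (h : ∀ π, Co φ π → bcg F φ (π.rTensor F x) ∈ I) : x ∈ I := by
  classical
  obtain ⟨ι, w, p, h1, h2⟩ := exists_co φ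
  have h3 : ∀ x : K' ⊗[ℂ] F, ∃ S : Finset ι, ∀ S', S ⊆ S' →
      x = ∑ j ∈ S', (w j ⊗ₜ[ℂ] (1 : F)) * bcg F φ ((p j).rTensor F x) := fun x => by
    induction x with
    | zero => exact ⟨∅, fun S' _ => by simp⟩
    | add y z k1 k2 =>
      obtain ⟨S, hS⟩ := k1
      obtain ⟨T, hT⟩ := k2
      refine ⟨S ∪ T, fun S' h' => ?_⟩
      simp only [map_add, mul_add, Finset.sum_add_distrib]
      rw [← hS S' (Finset.subset_union_left.trans h'), ← hT S' (Finset.subset_union_right.trans h')]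
    | tmul u e =>
      obtain ⟨S, hS⟩ := h2 u
      refine ⟨S, fun S' h' => ?_⟩
      conv_lhs => rw [hS S' h', TensorProduct.sum_tmul]
      exact Finset.sum_congr rfl fun j _ => by simp [bcg_tmul]
  obtain ⟨S, hS⟩ := h3 x
  rw [hS S le_rfl]
  exact sum_mem fun j _ => I.mul_mem_left _ (h _ (h1 j))

theorem cen_le (b : F →ₐ[ℂ] K) {I : Ideal (K ⊗[ℂ] F)}
    (h : ∀ e, b e ⊗ₜ[ℂ] (1 : F) - (1 : K) ⊗ₜ[ℂ] e ∈ I) : cen K b ≤ I := by
  have h1 : ∀ y : K ⊗[ℂ] F, ev K b y ⊗ₜ[ℂ] (1 : F) - y ∈ I := fun y => by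
    induction y with
    | zero => simp
    | add y z k1 k2 =>
      rw [map_add, TensorProduct.add_tmul, add_sub_add_comm]
      exact add_mem k1 k2
    | tmul c e =>
      have := I.mul_mem_left (c ⊗ₜ[ℂ] (1 : F)) (h e)
      simpa [mul_sub, ev_tmul] using this
  intro y hy
  have h2 := h1 y
  rwa [mem_cen.1 hy, TensorProduct.zero_tmul, zero_sub, neg_mem_iff] at h2

theorem ev_bcg (b : F →ₐ[ℂ] K) (y : K ⊗[ℂ] F) :
    ev K' (φ.comp b) (bcg F φ y) = φ (ev K b y) := by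
  induction y with
  | zero => simp
  | add y z k1 k2 => simp only [map_add, k1, k2]
  | tmul c e => simp [bcg_tmul, ev_tmul]

theorem cen_bcg (b : F →ₐ[ℂ] K) : cen K' (φ.comp b) = (cen K b).map (bcg F φ) := by
  refine le_antisymm (cen_le _ fun e => ?_) (Ideal.map_le_iff_le_comap.2 fun y hy => ?_)
  · have := Ideal.mem_map_of_mem (bcg F φ) (REG.dif_mem b e)
    simpa [bcg_tmul] using this
  · rw [Ideal.mem_comap, mem_cen, ev_bcg, mem_cen.1 hy, map_zero]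

theorem tn_rT (π : K' →ₗ[ℂ] K) {W : Submodule ℂ F} {x : K' ⊗[ℂ] F} (hx : x ∈ tn K' W) :
    π.rTensor F x ∈ tn K W := by
  obtain ⟨y, rfl⟩ := hx
  refine ⟨π.rTensor W y, ?_⟩
  rw [← LinearMap.comp_apply, ← LinearMap.comp_apply, LinearMap.lTensor_comp_rTensor,
    LinearMap.rTensor_comp_lTensor]

theorem tn_mono {W W' : Submodule ℂ F} (h : W ≤ W') : tn K W ≤ tn K W' := by
  rintro _ ⟨y, rfl⟩
  refine ⟨(Submodule.inclusion h).lTensor K y, ?_⟩
  rw [← LinearMap.comp_apply, ← LinearMap.lTensor_comp]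
  rfl

/-- The elements of some `K ⊗ V i` of order at least `n` at the point `b`. -/
def Lam (b : F →ₐ[ℂ] K) (V : ℕ → Submodule ℂ F) (n : ℕ) : Set (K ⊗[ℂ] F) :=
  {x | x ∈ cen K b ^ n ∧ ∃ i, x ∈ tn K (V i)}

variable {V : ℕ → Submodule ℂ F}

theorem lam_anti (b : F →ₐ[ℂ] K) {n n' : ℕ} (h : n ≤ n') : Lam b V n' ⊆ Lam b V n :=
  fun _ hx => ⟨Ideal.pow_le_pow_right h hx.1, hx.2⟩

theorem lam_bcg {b : F →ₐ[ℂ] K} {n : ℕ} {y : K ⊗[ℂ] F} (hy : y ∈ Lam b V n) :
    bcg F φ y ∈ Lam (φ.comp b) V n := by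
  obtain ⟨h1, i, h2⟩ := hy
  refine ⟨?_, i, tn_rT φ.toLinearMap h2⟩
  rw [cen_bcg, ← Ideal.map_pow]
  exact Ideal.mem_map_of_mem _ h1

theorem lam_le {b : F →ₐ[ℂ] K} {n : ℕ} {I : Ideal (K' ⊗[ℂ] F)}
    (h : ∀ y ∈ Lam b V n, bcg F φ y ∈ I) : Lam (φ.comp b) V n ⊆ I := by
  rintro x ⟨h1, i, h2⟩
  rw [cen_bcg, ← Ideal.map_pow] at h1
  exact mem_of_co fun π hπ => h _ ⟨hπ.map h1, i, tn_rT π h2⟩

theorem der_pow {R : Type} [CommRing R] [Algebra ℂ R] (D : Derivation ℂ R R) (m : Ideal R) (n : ℕ)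
    (x : R) (hx : x ∈ m ^ (n + 1)) : D x ∈ m ^ n := by
  induction n generalizing x with
  | zero => simp
  | succ n ih =>
    rw [pow_succ] at hx
    refine Submodule.mul_induction_on hx (fun a ha y hy => ?_) fun a y k1 k2 => ?_
    · rw [D.leibniz, smul_eq_mul, smul_eq_mul]
      refine add_mem (Ideal.mul_mem_right _ _ ha) ?_
      rw [pow_succ']
      exact Ideal.mul_mem_mul hy (ih a ha)
    · rw [map_add]
      exact add_mem k1 k2

theorem lam_der {b : F →ₐ[ℂ] K} {n : ℕ} {y : K ⊗[ℂ] F} (hy : y ∈ Lam b V (n + 1))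
    (D : Derivation ℂ K K) : derL F D y ∈ Lam b V n :=
  ⟨der_pow _ _ _ _ hy.1, hy.2.imp fun _ h => tn_rT D.toLinearMap h⟩

/-- The order at the other point. -/
theorem other {ι : F →ₐ[ℂ] K} {a : K →ₐ[ℂ] K'} {b : F →ₐ[ℂ] K'} {s : ℕ}
    (h : ∀ f ∈ Lam ι V s, bcg F a f ∈ cen K' b) (N : ℕ) (f : K ⊗[ℂ] F)
    (hf : f ∈ Lam ι V (s + N)) : bcg F a f ∈ cen K' b ^ (N + 1) := by
  induction N generalizing f with
  | zero => simpa using h f hf
  | succ N ih =>
    refine bREG F K' b (N + 1) _ N.succ_pos (ih f (lam_anti ι (by omega) hf)) fun D => ?_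
    refine mem_of_co (φ := a) fun π hπ => ?_
    let d : Derivation ℂ K K := Derivation.mk' (π ∘ₗ D.toLinearMap ∘ₗ a.toLinearMap) fun x y => by
      change π (D (a (x * y))) = x * π (D (a y)) + y * π (D (a x))
      rw [map_mul, D.leibniz, map_add, smul_eq_mul, smul_eq_mul, hπ, hπ]
    have h1 : ∀ g : K ⊗[ℂ] F, π.rTensor F (derL F D (bcg F a g)) = derL F d g := fun g => by
      induction g with
      | zero => simp
      | add y z k1 k2 => simp only [map_add, k1, k2]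
      | tmul c e => rfl
    rw [h1]
    exact ih _ (lam_der hf d)

/-- Primes stay prime over an algebraically closed field. -/
theorem prime_bcg [IsAlgClosed K] (φ : K →ₐ[ℂ] K') (P : Ideal (K ⊗[ℂ] F)) [hP : P.IsPrime] :
    (P.map (bcg F φ)).IsPrime := by
  let _ : Algebra K K' := φ.toRingHom.toAlgebra
  have : IsScalarTower ℂ K K' := .of_algebraMap_eq fun c => (φ.commutes c).symm
  have : IsDomain (K' ⊗[K] ((K ⊗[ℂ] F) ⧸ P)) := MP_07b136_ag.Sch.tensor_domain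
  let ψ : K' ⊗[ℂ] F →ₐ[ℂ] K' ⊗[K] ((K ⊗[ℂ] F) ⧸ P) := Algebra.TensorProduct.lift
    (Algebra.TensorProduct.includeLeft (S := ℂ))
    ((Algebra.TensorProduct.includeRight.restrictScalars ℂ).comp
      ((Ideal.Quotient.mkₐ ℂ P).comp Algebra.TensorProduct.includeRight))
    fun _ _ => mul_comm (G := K' ⊗[K] ((K ⊗[ℂ] F) ⧸ P)) _ _
  have h0 : ∀ (u : K') (e : F), ψ (u ⊗ₜ e) = u ⊗ₜ Ideal.Quotient.mk P (1 ⊗ₜ e) := fun u e => by
    simp [ψ]
  have h1 : ∀ (c : K) (e : F), Ideal.Quotient.mk P (c ⊗ₜ[ℂ] e) =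
      c • Ideal.Quotient.mk P ((1 : K) ⊗ₜ[ℂ] e) := fun c e => by
    rw [← Ideal.Quotient.mkₐ_eq_mk K, ← map_smul, TensorProduct.smul_tmul', smul_eq_mul, mul_one]
  have h2 : P.map (bcg F φ) = RingHom.ker ψ := by
    refine le_antisymm (Ideal.map_le_iff_le_comap.2 fun y hy => ?_) fun x hx => ?_
    · have h3 : ∀ y, ψ (bcg F φ y) = 1 ⊗ₜ Ideal.Quotient.mk P y := fun y => by
        induction y with
        | zero => simp
        | add y z k1 k2 => simp only [map_add, k1, k2, TensorProduct.tmul_add]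
        | tmul c e =>
          rw [bcg_tmul, h0, h1 c, TensorProduct.tmul_smul, TensorProduct.smul_tmul',
            Algebra.smul_def, mul_one]
          rfl
      rw [Ideal.mem_comap, RingHom.mem_ker, h3, Ideal.Quotient.eq_zero_iff_mem.2 hy,
        TensorProduct.tmul_zero]
    · refine mem_of_co (φ := φ) fun π hπ => Ideal.mem_map_of_mem _ ?_
      let π' : K' →ₗ[K] K := { toFun := π, map_add' := map_add π, map_smul' := hπ }
      have h3 : ∀ x, TensorProduct.lid K _ (π'.rTensor _ (ψ x)) =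
          Ideal.Quotient.mk P (π.rTensor F x) := fun x => by
        induction x with
        | zero => simp
        | add y z k1 k2 => simp only [map_add, k1, k2]
        | tmul u e =>
          rw [h0, LinearMap.rTensor_tmul, LinearMap.rTensor_tmul, TensorProduct.lid_tmul, h1 (π u)]
          rfl
      rw [← Ideal.Quotient.eq_zero_iff_mem, ← h3, RingHom.mem_ker.1 hx, map_zero, map_zero]
  rw [h2]
  exact RingHom.ker_isPrime _

/-- The two base changes are comparable. -/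
theorem key [IsAlgClosed K] {ι : F →ₐ[ℂ] K} {a b' : K →ₐ[ℂ] K'} {s : ℕ} {P P' : Ideal (K ⊗[ℂ] F)}
    [P'.IsPrime] (h1 : ∀ f, bcg F a f ∈ cen K' (b'.comp ι) ↔ f ∈ P) (h2 : Lam ι V s ⊆ P)
    (h3 : Lam ι V s ⊆ P') (h4 : P' ≤ cen K ι)
    (h5 : ∀ Q : Ideal (K ⊗[ℂ] F), Q.IsPrime → Lam ι V (s + s) ⊆ Q → Q ≤ P → Q = P)
    {f : K ⊗[ℂ] F} (hf : f ∈ P) : bcg F a f ∈ P'.map (bcg F b') := by
  have := prime_bcg b' P'
  have h6 := h5 ((P'.map (bcg F b')).comap (bcg F a)) (Ideal.comap_isPrime _ _) (fun g hg => ?_)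
    fun g hg => (h1 g).1 (by rw [cen_bcg]; exact Ideal.map_mono h4 hg)
  · rw [← h6] at hf
    exact hf
  · refine lam_le (fun y hy => Ideal.mem_map_of_mem _ (h3 hy)) ⟨?_, hg.2.imp fun _ h =>
      tn_rT a.toLinearMap h⟩
    exact Ideal.pow_le_pow_right s.le_succ (other (fun f hf => (h1 f).2 (h2 hf)) s g hg)

end Pool.Agent.Lib.KBE.R2
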