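import Pool.Agent.Lib.KBE.R2a

/-! The minimal prime is the kernel of the passage to the tensor product over a subfield. -/

open scoped TensorProduct
open Set

noncomputable section

namespace Pool.Agent.Lib.KBE.R2
open A35.G

section str
variable {F L : Type} [Field F] [Field L] [Algebra ℂ F] [Algebra ℂ L] [Algebra F L]
  [IsScalarTower ℂ F L]

variable (F L) in
/-- The diagonal point. -/
abbrev io : F →ₐ[ℂ] L := IsScalarTower.toAlgHom ℂ F L

variable (L) in
/-- A prime which is minimal among the primes over some level. -/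
structure Min (V : ℕ → Submodule ℂ F) (s : ℕ) (P : Ideal (L ⊗[ℂ] F)) : Prop where
  pr : P.IsPrime
  ge : Lam (io F L) V s ⊆ P
  le : P ≤ cen L (io F L)
  mn : ∀ n (Q : Ideal (L ⊗[ℂ] F)), Q.IsPrime → Lam (io F L) V n ⊆ Q → Q ≤ P → Q = P

theorem ext_pt [Algebra.IsAlgebraic F L] {Ω : Type} [Field Ω] [Algebra ℂ Ω] [IsAlgClosed Ω]
    (b : F →ₐ[ℂ] Ω) : ∃ b' : L →ₐ[ℂ] Ω, ∀ e, b' (algebraMap F L e) = b e := by
  let _ : Algebra F Ω := b.toRingHom.toAlgebra
  have : IsScalarTower ℂ F Ω := .of_algebraMap_eq fun c => (b.commutes c).symm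
  let b' : L →ₐ[F] Ω := IsAlgClosed.lift
  exact ⟨b'.restrictScalars ℂ, b'.commutes⟩

theorem point [Algebra.IsAlgebraic F L] (P : Ideal (L ⊗[ℂ] F)) [P.IsPrime] :
    ∃ (Ω : Type) (_ : Field Ω) (_ : Algebra ℂ Ω) (a b' : L →ₐ[ℂ] Ω),
      ∀ f, bcg F a f ∈ cen Ω (b'.comp (io F L)) ↔ f ∈ P := by
  let D := (L ⊗[ℂ] F) ⧸ P
  let Ω := AlgebraicClosure (FractionRing D)
  let ρ : L ⊗[ℂ] F →ₐ[ℂ] Ω := (IsScalarTower.toAlgHom ℂ (FractionRing D) Ω).comp
    ((IsScalarTower.toAlgHom ℂ D (FractionRing D)).comp (Ideal.Quotient.mkₐ ℂ P))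
  have h1 : ∀ f, ρ f = 0 ↔ f ∈ P := fun f => by
    change algebraMap (FractionRing D) Ω (algebraMap D (FractionRing D) (Ideal.Quotient.mk P f))
      = 0 ↔ _
    rw [map_eq_zero, FaithfulSMul.algebraMap_eq_zero_iff, Ideal.Quotient.eq_zero_iff_mem]
  obtain ⟨b', hb⟩ := ext_pt (L := L) (ρ.comp Algebra.TensorProduct.includeRight)
  refine ⟨Ω, inferInstance, inferInstance, ρ.comp (Algebra.TensorProduct.includeLeft (S := ℂ)),
    b', fun f => ?_⟩
  have h2 : ∀ f, ev Ω (b'.comp (io F L))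
      (bcg F (ρ.comp (Algebra.TensorProduct.includeLeft (S := ℂ))) f) = ρ f := fun f => by
    induction f with
    | zero => simp
    | add y z k1 k2 => simp only [map_add, k1, k2]
    | tmul c e =>
      rw [bcg_tmul, ev_tmul]
      change ρ (c ⊗ₜ 1) * b' (algebraMap F L e) = _
      rw [hb]
      change _ * ρ (1 ⊗ₜ e) = _
      rw [← map_mul]
      simp
  rw [mem_cen, h2, h1]

variable {V : ℕ → Submodule ℂ F} {s : ℕ} {P : Ideal (L ⊗[ℂ] F)}

theorem struct [IsAlgClosed L] [IsGalois F L] (h : Min L V s P) :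
    ∃ K : IntermediateField ℂ F,
      (∀ c ∈ K, ∀ P' : Ideal (L ⊗[ℂ] F), P'.IsPrime → Lam (io F L) V s ⊆ P' →
        P' ≤ cen L (io F L) → io F L c ⊗ₜ[ℂ] (1 : F) - (1 : L) ⊗ₜ[ℂ] c ∈ P') ∧ Clo K ∧
      ∀ (τ : Type) (e : τ → F), LinearIndependent K e → ∀ (S : Finset τ) (c : τ → L),
        ∑ i ∈ S, c i ⊗ₜ[ℂ] e i ∈ P → ∀ i ∈ S, c i = 0 := by
  classical
  have := h.pr
  obtain ⟨Ω, _, _, a, b', h1⟩ := point P
  let K : IntermediateField ℂ F :=
    (AlgHom.equalizer (a.comp (io F L)) (b'.comp (io F L))).toIntermediateField fun x hx => by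
      rw [AlgHom.mem_equalizer] at hx ⊢
      rw [map_inv₀, map_inv₀, hx]
  have hK : ∀ c, c ∈ K ↔ a (algebraMap F L c) = b' (algebraMap F L c) := fun c => Iff.rfl
  refine ⟨K, fun c hc P' p1 p2 p3 => ?_, fun f hf => ?_, fun τ e he S => ?_⟩
  · have h2 : bcg F a (io F L c ⊗ₜ[ℂ] (1 : F) - (1 : L) ⊗ₜ[ℂ] c) =
        bcg F b' (io F L c ⊗ₜ[ℂ] (1 : F) - (1 : L) ⊗ₜ[ℂ] c) := by
      simp only [map_sub, bcg_tmul, map_one]
      exact congrArg (fun u => u ⊗ₜ[ℂ] (1 : F) - (1 : Ω) ⊗ₜ[ℂ] c) ((hK c).1 hc)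
    refine mem_of_bcg (φ := b') ?_
    rw [← h2]
    refine key h1 h.ge p2 p3 (h.mn _) ((h1 _).1 ?_)
    rw [h2, cen_bcg]
    exact Ideal.mem_map_of_mem _ (REG.dif_mem _ c)
  · let _ : Algebra L Ω := a.toRingHom.toAlgebra
    obtain ⟨p, p1, p2⟩ := hf.isIntegral
    have h2 : IsIntegral L (b' (algebraMap F L f)) := by
      refine ⟨p.map ((algebraMap F L).comp (algebraMap K F)), p1.map _, ?_⟩
      rw [Polynomial.eval₂_map]
      have h3 := congrArg (b'.comp (io F L)).toRingHom p2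
      rw [Polynomial.hom_eval₂, map_zero] at h3
      rw [← h3]
      congr 1
      exact RingHom.ext fun c => (hK c).1 c.2
    obtain ⟨c, hc⟩ := minpoly.mem_range_of_degree_eq_one L _
      (IsAlgClosed.degree_eq_one_of_irreducible L (minpoly.irreducible h2))
    have h3 : c ⊗ₜ[ℂ] (1 : F) - (1 : L) ⊗ₜ[ℂ] f ∈ P := (h1 _).1 (by
      rw [mem_cen, map_sub, map_sub, bcg_tmul, bcg_tmul, ev_tmul, ev_tmul, map_one, map_one,
        map_one, mul_one, one_mul, sub_eq_zero]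
      exact hc)
    have h4 := mem_cen.1 (h.le h3)
    rw [map_sub, ev_tmul, ev_tmul, map_one, map_one, mul_one, one_mul, sub_eq_zero] at h4
    rw [hK, ← hc]
    exact congrArg a h4.symm
  · induction S using Finset.strongInduction with
    | H S ih =>
      intro c hc i hi
      by_contra h0
      have h2 : ∑ j ∈ S, ((c i)⁻¹ * c j) ⊗ₜ[ℂ] e j ∈ P := by
        have := P.mul_mem_left ((c i)⁻¹ ⊗ₜ[ℂ] (1 : F)) hc
        simpa [Finset.mul_sum] using this
      generalize hd : (fun j => (c i)⁻¹ * c j) = d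
      have d1 : d i = 1 := by rw [← hd]; exact inv_mul_cancel₀ h0
      replace h2 : ∑ j ∈ S, d j ⊗ₜ[ℂ] e j ∈ P := by rw [← hd]; exact h2
      have h3 : ∀ b'' : L →ₐ[ℂ] Ω, b''.comp (io F L) = b'.comp (io F L) →
          ∀ j ∈ S, a (d j) = b'' (d j) := fun b'' hb j hj => by
        have k1 := sub_mem (key (b' := b'') (hb ▸ h1) h.ge h.ge h.le (h.mn _) h2)
          (Ideal.mem_map_of_mem (bcg F b'') h2)
        rw [map_sum, map_sum, ← Finset.sum_sub_distrib, ← Finset.add_sum_erase _ _ hi] at k1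
        simp only [bcg_tmul, ← TensorProduct.sub_tmul, d1, map_one, sub_self, zero_add] at k1
        by_cases hij : j = i
        · rw [hij, d1, map_one, map_one]
        refine sub_eq_zero.1 (eq_zero_of_co (φ := b'') fun π hπ => ?_)
        have k2 := hπ.map k1
        rw [map_sum] at k2
        exact ih _ (Finset.erase_ssubset hi) (fun j => π (a (d j) - b'' (d j))) k2 j
          (Finset.mem_erase.2 ⟨hij, hj⟩)
      have h4 : ∀ j, ∃ u : K, j ∈ S → algebraMap F L u = d j := fun j => by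
        by_cases hj : j ∈ S
        · obtain ⟨u, hu⟩ := (InfiniteGalois.mem_range_algebraMap_iff_fixed (k := F) (d j)).2
            fun σ => b'.injective ((h3 (b'.comp (σ.toAlgHom.restrictScalars ℂ))
              (AlgHom.ext fun x => congrArg b' (σ.commutes x)) j hj).symm.trans
              (h3 b' rfl j hj))
          exact ⟨⟨u, (hK u).2 (by rw [hu]; exact h3 b' rfl j hj)⟩, fun _ => hu⟩
        · exact ⟨0, fun h => absurd h hj⟩
      choose u hu using h4
      have h5 : ∑ j ∈ S, u j • e j = 0 := by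
        apply (algebraMap F L).injective
        have k1 := mem_cen.1 (h.le h2)
        rw [map_sum] at k1
        rw [map_sum, map_zero, ← k1]
        refine Finset.sum_congr rfl fun j hj => ?_
        rw [ev_tmul, ← hu j hj]
        exact map_mul (algebraMap F L) _ _
      have h6 := hu i hi
      rw [linearIndependent_iff'.1 he S u h5 i hi, d1] at h6
      simp at h6

end str

section con
variable {F L : Type} [Field F] [Field L] [Algebra ℂ F] [Algebra ℂ L] {K : IntermediateField ℂ F}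

theorem sub_ev1 (b : F →ₐ[ℂ] L) (y : L ⊗[ℂ] F) : y - ev L b y ⊗ₜ[ℂ] (1 : F) ∈ cen L b :=
  REG.sub_ev b y

theorem con_mul (π : F →ₗ[K] K) (c : L ⊗[ℂ] K) (e : F) :
    con L π (inc L K c * (1 : L) ⊗ₜ[ℂ] e) = c * (1 : L) ⊗ₜ[ℂ] π e := by
  induction c with
  | zero => simp
  | add y z k1 k2 => simp only [map_add, add_mul, k1, k2]
  | tmul u x =>
    change con L π (u ⊗ₜ[ℂ] (x : F) * _) = _
    rw [Algebra.TensorProduct.tmul_mul_tmul, Algebra.TensorProduct.tmul_mul_tmul]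
    exact congrArg (fun y => (u * 1) ⊗ₜ[ℂ] y) (map_smul π x e)

variable (K) in
theorem exists_dec (f : L ⊗[ℂ] F) : ∃ (τ : Type) (e : τ → F) (π : τ → F →ₗ[K] K) (S : Finset τ),
    LinearIndependent K e ∧ f = ∑ j ∈ S, inc L K (con L (π j) f) * (1 : L) ⊗ₜ[ℂ] e j := by
  classical
  let B := Module.Basis.ofVectorSpace K F
  have h3 : ∀ f : L ⊗[ℂ] F, ∃ S : Finset _, ∀ S', S ⊆ S' →
      f = ∑ j ∈ S', inc L K (con L (B.coord j) f) * (1 : L) ⊗ₜ[ℂ] B j := fun f => by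
    induction f with
    | zero => exact ⟨∅, fun S' _ => by simp⟩
    | add y z k1 k2 =>
      obtain ⟨S, hS⟩ := k1
      obtain ⟨T, hT⟩ := k2
      refine ⟨S ∪ T, fun S' h' => ?_⟩
      simp only [map_add, add_mul, Finset.sum_add_distrib]
      rw [← hS S' (Finset.subset_union_left.trans h'), ← hT S' (Finset.subset_union_right.trans h')]
    | tmul u e =>
      refine ⟨(B.repr e).support, fun S' h' => ?_⟩
      conv_lhs => rw [← B.linearCombination_repr e, Finsupp.linearCombination_apply,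
        Finsupp.sum_of_support_subset _ h' (fun i a => a • B i) fun i _ => zero_smul K _,
        TensorProduct.tmul_sum]
      refine Finset.sum_congr rfl fun j _ => ?_
      change _ = u ⊗ₜ[ℂ] (B.repr e j : F) * _
      rw [Algebra.TensorProduct.tmul_mul_tmul, mul_one]
      rfl
  obtain ⟨S, hS⟩ := h3 f
  exact ⟨_, B, B.coord, S, B.linearIndependent, hS S le_rfl⟩

variable {ι : F →ₐ[ℂ] L} {P : Ideal (L ⊗[ℂ] F)}

theorem inc_mem (h : ∀ c ∈ K, ι c ⊗ₜ[ℂ] (1 : F) - (1 : L) ⊗ₜ[ℂ] c ∈ P) {y : L ⊗[ℂ] K}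
    (hy : y ∈ cen L (ι.comp K.val)) : inc L K y ∈ P :=
  cen_le (I := P.comap (inc L K)) (ι.comp K.val) (fun c => by
    rw [Ideal.mem_comap, map_sub]
    exact h c c.2) hy

theorem con_mem (h : ∀ c ∈ K, ι c ⊗ₜ[ℂ] (1 : F) - (1 : L) ⊗ₜ[ℂ] c ∈ P)
    (h' : ∀ (τ : Type) (e : τ → F), LinearIndependent K e → ∀ (S : Finset τ) (c : τ → L),
      ∑ i ∈ S, c i ⊗ₜ[ℂ] e i ∈ P → ∀ i ∈ S, c i = 0) {f : L ⊗[ℂ] F} (hf : f ∈ P)
    (π : F →ₗ[K] K) : con L π f ∈ cen L (ι.comp K.val) := by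
  obtain ⟨τ, e, p, S, h1, h2⟩ := exists_dec K f
  have h3 := h' τ e h1 S (fun j => ev L (ι.comp K.val) (con L (p j) f)) (by
    have k1 : ∑ j ∈ S, inc L K (con L (p j) f -
        ev L (ι.comp K.val) (con L (p j) f) ⊗ₜ[ℂ] (1 : K)) * (1 : L) ⊗ₜ[ℂ] e j ∈ P :=
      sum_mem fun j _ => P.mul_mem_right _ (inc_mem h (sub_ev1 _ _))
    simp only [map_sub, sub_mul, Finset.sum_sub_distrib, ← h2] at k1
    have k2 := sub_mem hf k1
    rw [sub_sub_cancel] at k2
    have k3 : ∀ (u : L) (x : F), inc L K (u ⊗ₜ[ℂ] (1 : K)) * (1 : L) ⊗ₜ[ℂ] x = u ⊗ₜ[ℂ] x :=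
      fun u x => by simp [inc]
    simpa only [k3] using k2)
  rw [h2, map_sum]
  refine sum_mem fun j hj => ?_
  rw [con_mul, mem_cen, map_mul, h3 j hj, zero_mul]

theorem con_pow {V : ℕ → Submodule ℂ F} {s : ℕ}
    (h : ∀ f ∈ Lam ι V s, ∀ π : F →ₗ[K] K, con L π f ∈ cen L (ι.comp K.val)) (N : ℕ)
    (f : L ⊗[ℂ] F) (hf : f ∈ Lam ι V (s + N)) (π : F →ₗ[K] K) :
    con L π f ∈ cen L (ι.comp K.val) ^ (N + 1) := by
  induction N generalizing f with
  | zero => simpa using h f hf π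
  | succ N ih =>
    refine bREG K L _ (N + 1) _ N.succ_pos (ih f (lam_anti ι (by omega) hf)) fun D => ?_
    have h1 : ∀ g : L ⊗[ℂ] F, derL K D (con L π g) = con L π (derL F D g) := fun g => by
      induction g with
      | zero => simp
      | add y z k1 k2 => simp only [map_add, k1, k2]
      | tmul c e => rfl
    rw [h1]
    exact ih _ (lam_der hf D)

theorem mem_of_con {I : Ideal (L ⊗[ℂ] F)} {f : L ⊗[ℂ] F}
    (h : ∀ π : F →ₗ[K] K, inc L K (con L π f) ∈ I) : f ∈ I := by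
  obtain ⟨τ, e, p, S, -, h2⟩ := exists_dec K f
  rw [h2]
  exact sum_mem fun j _ => I.mul_mem_right _ (h _)

end con

end Pool.Agent.Lib.KBE.R2
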